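import Pool.Agent.H27.TS.Poi2

/-!
# [H27 TS CHA] the two smooth sums of the Chebyshev identity

PROOF. `poi2` with `p = v - 1` and `φ(t) = t gk(U (v - t))`, supported in `[v - 2/U, v] ⊆ [v-1, v]` (`U ≥ 2`); derivatives
`|φ^(j)| ≤ (v + j) B U^j`, `B` a bound of the derivatives of `gk` up to order `A` (`gk` is smooth with compact support).
`∫ t gk(U(v-t)) e^t dt`, `t = v - w/U`: `= (e^v/U) ∫_0^2 (v - w/U) gk(w) e^(-w/U) dw = e^v (v cU - c1)`.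
Second: `p = ℓ - 1`, `φ(t) = (1 - W0(t - μ)) gk(U(ℓ - t))`, derivatives `≤ C B U^j` (Leibniz, `U ≥ 1`), integral
`= e^ℓ Bk U (ℓ - μ)`. The sums up to `⌊e^v⌋₊` and up to `N ≥ e^(v+1)` agree because `gk` vanishes at negative arguments
(see `Dv_eq`). `e^((1-A)(v-1)) = e^(A-1) e^((1-A)v)`.
-/

set_option autoImplicit false

namespace Pool.Agent.H27.TS

open MeasureTheory Finset Pool.Agent.H48.WN Pool.Agent.H24.WH

/-- second constant of the kernel -/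
noncomputable def cV (U : ℝ) : ℝ := 1 / U * ∫ w in (0 : ℝ)..2, w / U * gk w * Real.exp (-(w / U))

theorem cha1 (A : ℕ) (hA : 2 ≤ A) : ∃ C : ℝ, 0 < C ∧ ∀ U v : ℝ, 2 ≤ U → 1 ≤ v →
    |(∑ n ∈ Icc 1 ⌊Real.exp v⌋₊, Real.log n * gk (U * (v - Real.log n))) - Real.exp v * (v * cU U - cV U)| ≤
      C * (v + 1) * U ^ A * Real.exp ((1 - A) * v) := by
  sorry

theorem cha2 (A : ℕ) (hA : 2 ≤ A) : ∃ C : ℝ, 0 < C ∧ ∀ U l μ : ℝ, 2 ≤ U → 1 ≤ l →
    |(∑ m ∈ Icc 1 ⌊Real.exp l⌋₊, (1 - W0 (Real.log m - μ)) * gk (U * (l - Real.log m))) -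
        Real.exp l * Bk U (l - μ)| ≤ C * U ^ A * Real.exp ((1 - A) * l) := by
  sorry

end Pool.Agent.H27.TS
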