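import Pool.Agent.H27.TS.Rep

/-!
# [H27 TS CHB] the smooth sum of `Λ(n)/n`

PROOF. `B = Bk U`: `0` for `z ≤ 0`; `= cU U` for `z ≥ 1 + 2/U`, in particular for `z ≥ 2`; `0 ≤ B ≤ cU U ≤ 1/U`; continuously
differentiable with `|B'| ≤ C/U` (differentiate `W0` under the integral). `S(z) = ∑ Λ(n)/n B(z - log n)`. Partial summation
(`B(z - log y)/y` vanishes at `y = e^z`; `ψ = 0` below 2), `y = e^t`:
`S(z) = ∫_0^z ψ(e^t) e^(-t) (B + B')(z - t) dt` (e.g. `sum_mul_eq_sub_integral_mul` of Mathlib's Abel summation, or write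
`B(z - log n)/n = ∫_(log n)^z e^(-t) (B + B')(z-t) dt` for each `n` and sum: a finite sum of integrals).
`ψ(e^t) = e^t + Dl t`. First part: `∫_0^z (B+B')(t) dt = ∫_0^z B + B(z) = cU z + const` for `z ≥ 2`, the constant is
`cU - ∫_0^2 (cU - B)`. Second part: `∫_0^z Dl(t) e^(-t) (B+B')(z-t) dt = cU ∫_0^∞ Dl e^(-t) - cU ∫_(z-2)^∞ Dl e^(-t) +
∫_(z-2)^z Dl e^(-t) (B+B')(z-t)`; `∫_(z-2)^∞ |Dl| e^(-t) ≤ C' e^((σ-1)z)` by `HL` (blocks of length 4; `σ < 1`; `z - 2 ≥ 1 ≥ 0`), so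
the error is `≤ (C'/U) e^((σ-1)z)`. `c2 = cU ∫_0^∞ Dl e^(-t) dt + cU - ∫_0^2 (cU - B)` depends only on `U`.
-/

set_option autoImplicit false

namespace Pool.Agent.H27.TS

open MeasureTheory Finset Pool.Agent.H48.WN Pool.Agent.H24.WH

theorem cU_nonneg {U : ℝ} (hU : 0 < U) : 0 ≤ cU U := by
  sorry

theorem cU_le {U : ℝ} (hU : 0 < U) : cU U ≤ 1 / U := by
  sorry

theorem Bk_zero {U z : ℝ} (hU : 0 < U) (hz : z ≤ 0) : Bk U z = 0 := by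
  sorry

/-- tails -/
theorem hl_tail (σ C : ℝ) (hσ : 0 < σ) (hσ1 : σ < 1) (hHL : HL σ C) : ∃ C' : ℝ, 0 < C' ∧ ∀ V V' : ℝ, 0 ≤ V → V ≤ V' →
    ∫ v in V..V', |Dl v| * Real.exp (-v) ≤ C' * Real.exp ((σ - 1) * V) := by
  sorry

theorem chb (σ C : ℝ) (hσ : 0 < σ) (hσ1 : σ < 1) (hHL : HL σ C) : ∃ C' : ℝ, 0 < C' ∧ ∀ U : ℝ, 2 ≤ U → ∃ c2 : ℝ,
    ∀ z : ℝ, 3 ≤ z → |(∑ n ∈ Icc 1 ⌊Real.exp z⌋₊, ArithmeticFunction.vonMangoldt n / n * Bk U (z - Real.log n)) -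
      (cU U * z + c2)| ≤ C' / U * Real.exp ((σ - 1) * z) := by
  sorry

end Pool.Agent.H27.TS
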