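import Pool.Agent.H27.TS.Cha
import Pool.Agent.H27.TS.Chb

/-!
# [H27 TS CHC] Chebyshev's identity: the smooth sum `SS` is constant times `e^v` up to small errors

PROOF. `N = ⌊e^v⌋₊`. By `Dv_eq`/definition, `SS U μ v = ∑_m W0(log m - μ) ∑_n Λ(n) gk(U(v - log m - log n)) - cU e^v ∑_m W0(log m - μ)/m`
(`m ≤ e^(μ+1)`, beyond it `W0 = 0`). In the double sum put `k = mn` and use `∑_(n | k) Λ(n) = log k`
(`ArithmeticFunction.vonMangoldt_sum`), `W0 = 1 - (1 - W0)`: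
double sum `= ∑_(k ≤ N) log k gk(U(v - log k)) - ∑_n Λ(n) ∑_m (1 - W0(log m - μ)) gk(U((v - log n) - log m))`.
First sum: `cha1`. Second: for `n ≤ e^(v-μ)` (`l = v - log n ≥ μ ≥ 1`) `cha2`: `= Λ(n) (e^v/n Bk U (v - μ - log n) + O(U^A (e^v/n)^(1-A)))`;
for `n > e^(v-μ)` all `m ≤ e^l` have `log m ≤ μ`, `W0 = 1`, so the inner sum is `0`. The errors sum to at most
`C U^A e^((1-A)v) ∑_(n ≤ e^(v-μ)) Λ(n) n^(A-1) ≤ C U^A e^((1-A)v) e^((A-1)(v-μ)) 5 e^(v-μ) = 5 C e^v (U e^(-μ))^A`. `chb` at `z = v - μ ≥ 3`: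
`SS e^(-v) = v cU - cV - cU (v - μ) - c2 - cU ∑_m W0(log m - μ)/m + errors`: the constant is
`c4 = cU μ - cV - c2 - cU ∑_m W0(log m - μ)/m`. Errors: `C'/U e^((σ-1)(v-μ))`, `5C (U e^(-μ))^A` and
`C (v+1) (U e^(-v))^A ≤ C (μ+5) (U e^(-μ))^A` (`(v+1) e^(-A(v-μ)) ≤ μ + 5`).
-/

set_option autoImplicit false

namespace Pool.Agent.H27.TS

open MeasureTheory Finset Pool.Agent.H48.WN Pool.Agent.H24.WH

theorem chc (σ C : ℝ) (hσ : 0 < σ) (hσ1 : σ < 1) (hHL : HL σ C) (A : ℕ) (hA : 2 ≤ A) : ∃ C' : ℝ, 0 < C' ∧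
    ∀ U μ : ℝ, 2 ≤ U → 1 ≤ μ → ∃ c4 : ℝ, ∀ v : ℝ, μ + 3 ≤ v →
      |SS U μ v * Real.exp (-v) - c4| ≤
        C' / U * Real.exp ((σ - 1) * (v - μ)) + C' * (μ + 1) * (U * Real.exp (-μ)) ^ A := by
  sorry

end Pool.Agent.H27.TS
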