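import Pool.Agent.H27.TS.Chc

/-!
# [H27 TS CHD] the smooth Chebyshev sum is small

PROOF. `chc` gives `c4`; to bound it let `v → ∞` in the mean, `U, μ` fixed: `∫_V^(V+1) |Dv U v| dv ≤ 2 ∫_(V-1)^(V+1) |Dl|`
(`rep_dl`, `φ' ≥ 0`, `∫ φ' = 1`, Fubini, `2/U ≤ 1`) `≤ 4 C e^(σV)` by `HL` (`V ≥ 1`), so
`∫_V^(V+1) |SS U μ v| e^(-v) dv ≤ ∑_m e^(-V) 4 C e^(σ (V - log m)) → 0` as `V → ∞` (finitely many `m`). With `chc`: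
`|c4| ≤ ∫_V^(V+1) (|SS| e^(-v) + |SS e^(-v) - c4|) → ≤ C' (μ+1) (U e^(-μ))^A`. So the claim holds with `2 C'`.
-/

set_option autoImplicit false

namespace Pool.Agent.H27.TS

open MeasureTheory Finset Pool.Agent.H48.WN Pool.Agent.H24.WH

theorem chd (σ C : ℝ) (hσ : 0 < σ) (hσ1 : σ < 1) (hHL : HL σ C) (A : ℕ) (hA : 2 ≤ A) : ∃ C' : ℝ, 0 < C' ∧
    ∀ U μ : ℝ, 2 ≤ U → 1 ≤ μ → ∀ v : ℝ, μ + 3 ≤ v →
      |SS U μ v| ≤ Real.exp v *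
        (C' / U * Real.exp ((σ - 1) * (v - μ)) + C' * (μ + 1) * (U * Real.exp (-μ)) ^ A) := by
  sorry

end Pool.Agent.H27.TS
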