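import Pool.Agent.H27.TS.Mez

/-!
# [H27 TS MEA] the mean square from the mean and the sup

PROOF. `F ≥ 0` and `om ≥ 0`, `om = 1` on `[0,1]`: `∫_V^(V+1) F ≤ ∫_(V-1)^(V+2) om(v-V) F(v) dv ≤ s ∫ om Dv + ∫ κ + (C/U) 11 Fm 3`, where
`up` is used on `[V-1, V+2]` and `F ≤ Fm` on `[V-2, V+3]`; `mez` for the first term. This is the bound `I` below (with a larger
constant). Then `low`: `|Dv| ≤ F + κ + 11 C Fm/U`, `Dv² ≤ 3 F² + 3 κ² + 3 (11 C Fm/U)²`, `F² ≤ Fm F`.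
(`F` is measurable and bounded on the intervals: interval integrable; `κ` is continuous.)
-/

set_option autoImplicit false

namespace Pool.Agent.H27.TS

open MeasureTheory Finset Pool.Agent.H48.WN Pool.Agent.H24.WH

theorem mea : ∃ C0 : ℝ, 0 < C0 ∧ ∀ (s U C R1 R2 V Fm : ℝ) (κ F : ℝ → ℝ), (s = 1 ∨ s = -1) → 0 ≤ C → 10 ≤ U →
    Continuous κ → (∀ v, 0 ≤ κ v) → Dom s U C R1 R2 κ F → R1 + 3 ≤ V → V ≤ R2 - 4 →
    (∀ v : ℝ, V - 2 ≤ v → v ≤ V + 3 → F v ≤ Fm) →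
    ∫ v in V..(V + 1), (Dv U v) ^ 2 ≤
      C0 * Fm * ((∫ v in (V - 2)..(V + 2), |Dl v|) / U + (∫ v in (V - 1)..(V + 2), κ v) + C / U * Fm) +
      C0 * (∫ v in V..(V + 1), (κ v) ^ 2) + C0 * (C / U * Fm) ^ 2 := by
  sorry

end Pool.Agent.H27.TS
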