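import Pool.Agent.H27.TS.Rep

/-!
# [H27 TS SUP] the pointwise bound

PROOF. `G v = ∑_(m ≤ e^(μ+1)) W0(log m - μ) F(v - log m)`, `M = ⌊e^(μ+1)⌋`; all `v - log m` lie in `[v - μ - 1, v]`. For
`R1 + μ + 2 ≤ v ≤ R2 - 1` sum `up` at `v - log m` with the weights `W0 ≥ 0`:
`G v ≤ s SS U μ v + ∑ W0 κ(v - log m) + (C/U) ∑_i G(v + (i-5)/U) ≤ A + (11C/U) max`, where the max is over
`[v - 5/U, v + 5/U]`. Iterate `J` times (induction on `j`: for `v ∈ [R1 + μ + 2 + 5j/U, R2 - 1 - 5j/U]`,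
`G v ≤ A (1 + q + .. + q^(j-1)) + q^j Gmax`, `q = 11C/U ≤ 1/2`; `5J/U ≤ 1`). `Gmax ≤ e^(μ+1) C e^(2 R2)` from `triv` (use it on the
whole range `[R1 + μ + 1, R2]`). Finally `F v ≤ G v`: the term `m = 1` has `W0(-μ) = 1` (`μ ≥ 0`), the others are `≥ 0`.
-/

set_option autoImplicit false

namespace Pool.Agent.H27.TS

open MeasureTheory Finset Pool.Agent.H48.WN Pool.Agent.H24.WH

theorem sup_bd (s U C R1 R2 μ A : ℝ) (κ F : ℝ → ℝ) (hs : s = 1 ∨ s = -1) (hC : 0 ≤ C) (hμ : 0 ≤ μ)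
    (hκ : ∀ v, 0 ≤ κ v) (hD : Dom s U C R1 R2 κ F) (J : ℕ) (hUJ : 5 * J ≤ U) (hU0 : 10 ≤ U) (hUC : 22 * C ≤ U)
    (hA : ∀ v : ℝ, R1 + μ + 2 ≤ v → v ≤ R2 - 1 →
      |SS U μ v| + ∑ m ∈ Icc 1 ⌊Real.exp (μ + 1)⌋₊, W0 (Real.log m - μ) * κ (v - Real.log m) ≤ A) :
    ∀ v : ℝ, R1 + μ + 3 ≤ v → v ≤ R2 - 2 →
      F v ≤ 2 * A + (11 * C / U) ^ J * (Real.exp (μ + 1) * (C * Real.exp (2 * R2))) := by
  sorry

end Pool.Agent.H27.TS
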