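import Pool.Agent.H27.TS.Low
import Pool.Agent.H27.TS.Sup
import Pool.Agent.H27.TS.Mea
import Pool.Agent.H27.TS.Chd

/-!
# [H27 TS CORE] the contradiction

`L = log T`, `U = 8T`, `μ = (1+ε) L`, `κ v = K e^(βv) T^(-λ)` (`lam = λ`), `R1 = (b-1-2ε)L`, `R2 = (b+1/2+2ε)L`.
PROOF. `low b ε`: for large `T` some `V ∈ [bL, (b+1/2+ε)L]` has `T^(-1-ε) e^V ≤ ∫_V^(V+1) Dv²`. Upper bound. For
`v ∈ [R1 + μ + 2, R2 - 1]` and `|v - V| ≤ 3` (or all `v ∈ [V-4, V+4]`; write `v = V + O(1)`; to apply `sup_bd` take its range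
`[R1', R2']` with `R1' = V - μ - 6`, `R2' = V + 6`, `Dom` restricted to it: `Dom` is monotone in the range, and
`R1 ≤ R1'`, `R2' ≤ R2` for large `T` as `V - μ - 6 ≥ (b-1-ε)L - 6`): `chd` with `A` (natural, `εA ≥ b + 10`):
`|SS| ≤ C e^v (T^(-1) e^((σ-1)(v-μ)) + (μ+1) (8T·T^(-1-ε))^A) ≤ C (e^(σV) T^((1+ε)(1-σ)-1) + 1)`, and
`∑_(m ≤ e^(μ+1)) κ(v - log m) = κ(v) ∑ m^(-β) ≤ C κ(v) e^((1-β)(μ+1)) ≤ C e^(βV) T^(-λ+(1+ε)(1-β))`. `sup_bd` with `J ≥ 3b + 10 + ...`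
(`(11C/U)^J e^(μ+1) C e^(2R2') ≤ 1`): so `F ≤ Fm := C (e^(σV) T^((1+ε)(1-σ)-1) + e^(βV) T^(-λ+(1+ε)(1-β)) + 1)` on `[V-2, V+3]`.
`HL`: `∫_(V-2)^(V+2) |Dl| ≤ C e^(σV)`. `mea`: `∫ Dv² ≤ C Fm (e^(σV) T^(-1) + e^(βV) T^(-λ) + T^(-1) Fm) + C e^(2βV) T^(-2λ) + C T^(-2) Fm²`.
Divide by `e^V`, `V = yL`, `b ≤ y ≤ b + 1/2 + ε`: the exponents of `T` are, by `hnum` (and `ε(1-β) ≤ ε/2`, `1/2 ≤ β, σ`,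
`ε ≤ 1/16`; `T^(-1) Fm ≤ C (e^(σV) T^(-1) T^(-1/4)..)` is dominated by the other two because `(1+ε)(1-β) ≤ 1`; the `+1` in `Fm`:
note `e^(σV) T^(-1) ≥ 1` as `σ b ≥ 1`, so `1 ≤ e^(σV) T^((1+ε)(1-σ)-1)`) all `≤ -1 - 3ε`: contradiction for large `T`.
-/

set_option autoImplicit false

namespace Pool.Agent.H27.TS

open MeasureTheory Finset Pool.Agent.H48.WN Pool.Agent.H24.WH

theorem core (s b ε β σ lam K C C1 : ℝ) (hs : s = 1 ∨ s = -1) (hb : 2 ≤ b) (hε : 0 < ε) (hε1 : ε ≤ 1 / 16)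
    (hβ : 1 / 2 ≤ β) (hβ1 : β < 1) (hσ : 1 / 2 ≤ σ) (hσ1 : σ < 1) (hK : 0 ≤ K) (hC : 0 ≤ C) (hHL : HL σ C1)
    (hnum : ∀ y : ℝ, b ≤ y → y ≤ b + 1 / 2 + ε →
      (2 * β - 1) * y - 2 * lam + (1 - β) + 4 * ε ≤ -1 ∧
      (β + σ - 1) * y - lam + (1 - β) - 1 + 4 * ε ≤ -1 ∧
      (2 * σ - 1) * y + (1 - σ) - 2 + 4 * ε ≤ -1 ∧
      (β + σ - 1) * y - lam + (1 - σ) - 1 + 4 * ε ≤ -1)
    (hdom : ∃ T1 : ℝ, ∀ T : ℝ, T1 ≤ T → ∃ F : ℝ → ℝ,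
      Dom s (8 * T) C ((b - 1 - 2 * ε) * Real.log T) ((b + 1 / 2 + 2 * ε) * Real.log T)
        (fun v => K * Real.exp (β * v) * T ^ (-lam)) F) : False := by
  sorry

end Pool.Agent.H27.TS
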