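import Pool.Agent.H24.WH.Wgh

/-!
# TWO SIDES AT EVERY EXPONENT (MP_31d0eb_nt, THEOREM TS, think 2364): definitions

Everything in the logarithmic scale `v = log x`, `L = log T`, `U = 8T`.
`gk` is a smooth kernel on `[0,2]`, `gk w = φ(w) - φ(w-1)`, `φ = Real.smoothTransition`, `∫ gk = 1`, a nonnegative
superposition of indicators of intervals of length one: `gk w = ∫_0^1 φ'(c) 1[c ≤ w < c+1] dc`.
`Dv U v = ∑ Λ(n) gk(U (v - log n)) - cU U e^v` = smoothed error of `ψ` in an interval of relative length `1/U` just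
below `x = e^v`. `Dl v = ψ(e^v) - e^v`. `W0` = cut-off (`1` for `t ≤ 0`, `0` for `t ≥ 1`).
`SS U μ v = ∑_m W0(log m - μ) Dv U (v - log m)`: small because `Λ * 1 = log` has no fluctuation.
IDEA. If `s Dv + κ ≥ 0` (`s = ±1`) on a range then `Dv(v) s + κ(v) ≤ ∑_m W0 κ(v - log m) + s SS`, a pointwise bound
far better than Brun-Titchmarsh; with the mean (Landau) it bounds the mean square of `Dv`, against `H24/WH rlh`.
-/

set_option autoImplicit false

namespace Pool.Agent.H27.TS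

open MeasureTheory Finset Pool.Agent.H48.WN Pool.Agent.H24.WH

/-- the kernel -/
noncomputable def gk (w : ℝ) : ℝ := Real.smoothTransition w - Real.smoothTransition (w - 1)

/-- the mass of the kernel in the scale of `x` -/
noncomputable def cU (U : ℝ) : ℝ := 1 / U * ∫ w in (0 : ℝ)..2, gk w * Real.exp (-(w / U))

/-- smooth short sum, `x = e^v` -/
noncomputable def Dv (U v : ℝ) : ℝ :=
  (∑ n ∈ Icc 1 ⌊Real.exp v⌋₊, ArithmeticFunction.vonMangoldt n * gk (U * (v - Real.log n))) -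
    cU U * Real.exp v

/-- error of `ψ` -/
noncomputable def Dl (v : ℝ) : ℝ := Chebyshev.psi (Real.exp v) - Real.exp v

/-- cut-off in the logarithmic scale -/
noncomputable def W0 (t : ℝ) : ℝ := Real.smoothTransition (1 - t)

/-- the smooth Chebyshev sum -/
noncomputable def SS (U μ v : ℝ) : ℝ :=
  ∑ m ∈ Icc 1 ⌊Real.exp (μ + 1)⌋₊, W0 (Real.log m - μ) * Dv U (v - Real.log m)

/-- the smooth kernel of the tail -/
noncomputable def Bk (U z : ℝ) : ℝ :=
  1 / U * ∫ w in (0 : ℝ)..2, (1 - W0 (z - w / U)) * gk w * Real.exp (-(w / U))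

/-- mean bound for the error of `ψ` (from Landau's lemma) -/
def HL (σ C : ℝ) : Prop := ∀ V : ℝ, 0 ≤ V → ∫ v in V..(V + 4), |Dl v| ≤ C * Real.exp (σ * V)

/-- mean square of a Dirichlet polynomial with smooth weights on `[T/4, 4T]` -/
noncomputable def Nn (ρ : ℝ → ℝ) (T σ : ℝ) : ℕ → ℝ := fun N =>
  ∫ t in (T / 4)..(4 * T), ‖Dp La ρ T N ((σ : ℂ) + (t : ℂ) * Complex.I)‖ ^ 2

/-- one-sided errors of `ψ` in all intervals `(y, y + h]`, `8 y^θ ≤ h ≤ y` -/
def OS (s θ α C y0 : ℝ) : Prop :=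
  ∀ y h : ℝ, y0 ≤ y → 8 * y ^ θ ≤ h → h ≤ y → -(C * (h * y ^ (α - 1))) ≤ s * Ps y h

/-- error of the primes with weights `log p` at integers -/
noncomputable def ET (n m : ℕ) : ℝ := (∑ p ∈ (Ioc n (n + m)).filter Nat.Prime, Real.log p) - m

/-- domination of the smooth sums on `[R1, R2]` by a nonnegative function `F` -/
structure Dom (s U C R1 R2 : ℝ) (κ F : ℝ → ℝ) : Prop where
  meas : Measurable F
  nonneg : ∀ v : ℝ, R1 ≤ v → v ≤ R2 → 0 ≤ F v
  triv : ∀ v : ℝ, R1 ≤ v → v ≤ R2 → F v ≤ C * Real.exp (2 * v)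
  up : ∀ v : ℝ, R1 + 1 ≤ v → v ≤ R2 - 1 →
    F v ≤ s * Dv U v + κ v + C / U * ∑ i ∈ range 11, F (v + ((i : ℝ) - 5) / U)
  low : ∀ v : ℝ, R1 + 1 ≤ v → v ≤ R2 - 1 →
    |Dv U v| ≤ F v + κ v + C / U * ∑ i ∈ range 11, F (v + ((i : ℝ) - 5) / U)

theorem gk_nonneg (w : ℝ) : 0 ≤ gk w := by
  unfold gk
  have := Real.smoothTransition.monotone (show w - 1 ≤ w by linarith)
  linarith

theorem gk_le_one (w : ℝ) : gk w ≤ 1 := by
  unfold gk
  have h1 := Real.smoothTransition.le_one w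
  have h2 := Real.smoothTransition.nonneg (w - 1)
  linarith

theorem gk_zero_left {w : ℝ} (hw : w ≤ 0) : gk w = 0 := by
  unfold gk
  rw [Real.smoothTransition.zero_of_nonpos hw, Real.smoothTransition.zero_of_nonpos (by linarith)]
  ring

theorem gk_zero_right {w : ℝ} (hw : 2 ≤ w) : gk w = 0 := by
  unfold gk
  rw [Real.smoothTransition.one_of_one_le (by linarith), Real.smoothTransition.one_of_one_le (by linarith)]
  ring

theorem gk_contDiff : ContDiff ℝ (⊤ : ℕ∞) gk := by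
  unfold gk
  exact Real.smoothTransition.contDiff.sub (Real.smoothTransition.contDiff.comp (by fun_prop))

theorem W0_contDiff : ContDiff ℝ (⊤ : ℕ∞) W0 := by
  unfold W0
  exact Real.smoothTransition.contDiff.comp (by fun_prop)

theorem W0_nonneg (t : ℝ) : 0 ≤ W0 t := Real.smoothTransition.nonneg _

theorem W0_le_one (t : ℝ) : W0 t ≤ 1 := Real.smoothTransition.le_one _

theorem W0_one {t : ℝ} (ht : t ≤ 0) : W0 t = 1 := by
  unfold W0
  exact Real.smoothTransition.one_of_one_le (by linarith)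

theorem W0_zero {t : ℝ} (ht : 1 ≤ t) : W0 t = 0 := by
  unfold W0
  exact Real.smoothTransition.zero_of_nonpos (by linarith)

/-- the sum in `Dv` can be taken up to any `N ≥ e^v` -/
theorem Dv_eq {U : ℝ} (hU : 0 ≤ U) (v : ℝ) {N : ℕ} (hN : ⌊Real.exp v⌋₊ ≤ N) :
    Dv U v = (∑ n ∈ Icc 1 N, ArithmeticFunction.vonMangoldt n * gk (U * (v - Real.log n))) -
      cU U * Real.exp v := by
  unfold Dv
  congr 1
  refine sum_subset (Icc_subset_Icc_right hN) fun n hn hn' => ?_
  have h1 : 1 ≤ n := (mem_Icc.1 hn).1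
  have h2 : ⌊Real.exp v⌋₊ < n := by
    by_contra h
    exact hn' (mem_Icc.2 ⟨h1, not_lt.1 h⟩)
  have h3 : Real.exp v < n := (Nat.floor_lt (Real.exp_pos v).le).1 h2
  have h4 : v < Real.log n := by
    rw [Real.lt_log_iff_exp_lt (by exact_mod_cast h1)]
    exact h3
  rw [gk_zero_left (mul_nonpos_of_nonneg_of_nonpos hU (by linarith)), mul_zero]

end Pool.Agent.H27.TS
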