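import Pool.Agent.H27.TS.Rep

/-!
# [H27 TS DOP] the one-sided bound for the smooth sums, and the domination `Dom` in the log-weight case

PROOF of `ker`. `rep_ps`: `s Dv U v = ∫_0^1 φ'(c) s Ps(y_c, h_c) dc`, `y_c = e^(v-(c+1)/U)`, `h_c = y_c (e^(1/U) - 1)`, so
`y_c/U ≤ h_c ≤ 2 y_c/U`, `h_c ≤ y_c` (`U ≥ 2`), `y_c ≥ e^(v-1)` and `y_c^(1-θ) ≥ e^((1-θ)v) / e ≥ 64U/e ≥ 8U`, so
`8 y_c^θ ≤ y_c/U ≤ h_c`; `OS` gives `s Ps ≥ -C h_c y_c^(α-1) ≥ -(2C/U) y_c^α ≥ -(2C/U) e^(αv)`.
PROOF of `dop`. `F v = s Dv (8T) v + κ v` (continuous), `κ v = 2C e^(αv) T^(-1)` on the range: `64 · 8T ≤ e^((1-θ)v)` for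
`v ≥ (b-1-2ε) L` as `T^((1-θ)(b-1-2ε)) ≥ 512 T` for large `T`, and `(b-1-2ε) L ≥ v0`. `nonneg`: `ker` (there `2C/U = 2C/(8T)`).
`up`: equality up to the nonnegative last sum (the points `v + (i-5)/U` stay in the range). `low`: `|s Dv| = |F - κ| ≤ F + κ`.
`triv`: `dv_abs` and `κ v ≤ 2C e^v`. (`κ`: `fun v => K * exp (α v) * T^(-1 : ℝ)`, `K = 2C`.)
-/

set_option autoImplicit false

namespace Pool.Agent.H27.TS

open MeasureTheory Finset Pool.Agent.H48.WN Pool.Agent.H24.WH

/-- pointwise bound -/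
private theorem dop_pt (s θ α C y0 : ℝ) (hθ1 : θ < 1) (hα : 0 ≤ α)
    (hC : 0 ≤ C) (hOS : OS s θ α C y0) (U v c : ℝ) (hU : 2 ≤ U) (hv : y0 ≤ Real.exp (v - 1))
    (hbig : 64 * U ≤ Real.exp ((1 - θ) * v)) (hc0 : 0 ≤ c) (hc1 : c ≤ 1) (hθ : 0 < θ) :
    -(2 * C * Real.exp (α * v) / U) ≤
      s * Ps (Real.exp (v - (c + 1) / U)) (Real.exp (v - c / U) - Real.exp (v - (c + 1) / U)) := by
  have hU0 : 0 < U := by linarith
  set y : ℝ := Real.exp (v - (c + 1) / U) with hy
  have hy0 : 0 < y := Real.exp_pos _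
  have hxle : 1 / U ≤ 1 / 2 := one_div_le_one_div_of_le (by norm_num) hU
  have hx0 : 0 < 1 / U := by positivity
  have hh : Real.exp (v - c / U) - y = y * (Real.exp (1 / U) - 1) := by
    have : Real.exp (v - c / U) = y * Real.exp (1 / U) := by
      rw [hy, ← Real.exp_add]
      congr 1
      ring
    rw [this]
    ring
  rw [hh]
  have e1 : 1 / U ≤ Real.exp (1 / U) - 1 := by
    have := Real.add_one_le_exp (1 / U)
    linarith
  have e2 : Real.exp (1 / U) - 1 ≤ 2 * (1 / U) := by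
    have h1 : Real.exp (-(1 / U)) ≥ 1 - 1 / U := by
      have := Real.add_one_le_exp (-(1 / U))
      linarith
    have h2 : Real.exp (1 / U) * Real.exp (-(1 / U)) = 1 := by
      rw [← Real.exp_add, add_neg_cancel, Real.exp_zero]
    have h3 := Real.exp_pos (1 / U)
    have h4 : Real.exp (1 / U) * (1 - 1 / U) ≤ 1 := by
      calc Real.exp (1 / U) * (1 - 1 / U) ≤ Real.exp (1 / U) * Real.exp (-(1 / U)) :=
            mul_le_mul_of_nonneg_left h1 h3.le
        _ = 1 := h2
    nlinarith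
  have hyle : y ≤ Real.exp v := by
    rw [hy]
    apply Real.exp_le_exp.2
    have : 0 ≤ (c + 1) / U := by positivity
    linarith
  have hyge : Real.exp (v - 1) ≤ y := by
    rw [hy]
    apply Real.exp_le_exp.2
    have : (c + 1) / U ≤ 1 := by
      rw [div_le_one hU0]
      linarith
    linarith
  have hpow : 8 * U ≤ y ^ (1 - θ) := by
    have h1 : Real.exp ((1 - θ) * v - 1) ≤ y ^ (1 - θ) := by
      have h2 : (Real.exp (v - 1)) ^ (1 - θ) ≤ y ^ (1 - θ) :=
        Real.rpow_le_rpow (Real.exp_pos _).le hyge (by linarith)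
      refine le_trans ?_ h2
      rw [← Real.exp_mul]
      apply Real.exp_le_exp.2
      nlinarith
    have h3 : Real.exp ((1 - θ) * v - 1) * Real.exp 1 = Real.exp ((1 - θ) * v) := by
      rw [← Real.exp_add]
      congr 1
      ring
    have h4 : Real.exp 1 < 8 := by
      have := Real.exp_one_lt_d9
      linarith
    have h5 := Real.exp_pos ((1 - θ) * v - 1)
    nlinarith
  have hsplit : y ^ θ * y ^ (1 - θ) = y := by
    rw [← Real.rpow_add hy0, add_sub_cancel, Real.rpow_one]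
  have hθ0 : 0 < y ^ θ := Real.rpow_pos_of_pos hy0 _
  have c1 : 8 * y ^ θ ≤ y * (Real.exp (1 / U) - 1) := by
    have h1 : 8 * y ^ θ ≤ y * (1 / U) := by
      rw [mul_one_div, le_div_iff₀ hU0]
      calc 8 * y ^ θ * U = y ^ θ * (8 * U) := by ring
        _ ≤ y ^ θ * y ^ (1 - θ) := mul_le_mul_of_nonneg_left hpow hθ0.le
        _ = y := hsplit
    exact h1.trans (mul_le_mul_of_nonneg_left e1 hy0.le)
  have c2 : y * (Real.exp (1 / U) - 1) ≤ y := by
    have : Real.exp (1 / U) - 1 ≤ 1 := by linarith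
    nlinarith
  have h1 := hOS y (y * (Real.exp (1 / U) - 1)) (hv.trans hyge) c1 c2
  refine le_trans ?_ h1
  apply neg_le_neg
  have h2 : y * y ^ (α - 1) = y ^ α := by
    nth_rewrite 1 [← Real.rpow_one y]
    rw [← Real.rpow_add hy0]
    congr 1
    ring
  have h3 : y ^ α ≤ Real.exp (α * v) := by
    rw [mul_comm α v, Real.exp_mul]
    exact Real.rpow_le_rpow hy0.le hyle hα
  have h4 : 0 ≤ y ^ α := Real.rpow_nonneg hy0.le _
  calc C * (y * (Real.exp (1 / U) - 1) * y ^ (α - 1))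
      = C * ((Real.exp (1 / U) - 1) * y ^ α) := by rw [← h2]; ring
    _ ≤ C * ((2 * (1 / U)) * Real.exp (α * v)) := by
        refine mul_le_mul_of_nonneg_left ?_ hC
        exact mul_le_mul e2 h3 h4 (by positivity)
    _ = 2 * C * Real.exp (α * v) / U := by ring

theorem ker (s θ α C y0 : ℝ) (hs : s = 1 ∨ s = -1) (hθ : 0 < θ) (hθ1 : θ < 1) (hα : 0 ≤ α) (hα1 : α < 1)
    (hC : 0 ≤ C) (hOS : OS s θ α C y0) : ∃ v0 : ℝ, ∀ U v : ℝ, 2 ≤ U → v0 ≤ v →
      64 * U ≤ Real.exp ((1 - θ) * v) → -(2 * C * Real.exp (α * v) / U) ≤ s * Dv U v := by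
  refine ⟨1 + Real.log (max y0 1), fun U v hU hv hbig => ?_⟩
  have hU0 : 0 < U := by linarith
  have hy : y0 ≤ Real.exp (v - 1) := by
    have h1 : 0 < max y0 1 := lt_of_lt_of_le one_pos (le_max_right _ _)
    have h2 : Real.log (max y0 1) ≤ v - 1 := by linarith
    exact (le_max_left _ _).trans ((Real.log_le_iff_le_exp h1).1 h2)
  rw [rep_ps hU0 v]
  set g : ℝ → ℝ := fun c => deriv Real.smoothTransition c *
      Ps (Real.exp (v - (c + 1) / U)) (Real.exp (v - c / U) - Real.exp (v - (c + 1) / U)) with hg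
  have hK : 0 ≤ 2 * C * Real.exp (α * v) / U := by positivity
  rw [← intervalIntegral.integral_const_mul]
  by_cases hi : IntervalIntegrable (fun c => s * g c) volume 0 1
  · have hd : IntervalIntegrable (fun c => deriv Real.smoothTransition c) volume 0 1 := by
      have hcd : ContDiff ℝ 1 Real.smoothTransition := Real.smoothTransition.contDiff
      exact (hcd.continuous_deriv le_rfl).intervalIntegrable _ _
    have h1 : ∫ c in (0 : ℝ)..1, deriv Real.smoothTransition c * (-(2 * C * Real.exp (α * v) / U))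
        = -(2 * C * Real.exp (α * v) / U) := by
      rw [intervalIntegral.integral_mul_const, st_deriv_int, one_mul]
    rw [← h1]
    refine intervalIntegral.integral_mono_on (by norm_num) (hd.mul_const _) hi fun c hc => ?_
    have h2 := dop_pt s θ α C y0 hθ1 hα hC hOS U v c hU hy hbig hc.1 hc.2 hθ
    have h3 := mul_le_mul_of_nonneg_left h2 (st_deriv_nonneg c)
    calc deriv Real.smoothTransition c * (-(2 * C * Real.exp (α * v) / U)) ≤ _ := h3
      _ = s * g c := by rw [hg]; ring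
  · rw [intervalIntegral.integral_undef hi]
    linarith

theorem dop (s θ α C y0 b ε : ℝ) (hs : s = 1 ∨ s = -1) (hθ : 0 < θ) (hθ1 : θ < 1) (hα : 0 ≤ α) (hα1 : α < 1)
    (hC : 0 ≤ C) (hOS : OS s θ α C y0) (hb : 1 < (1 - θ) * (b - 1 - 2 * ε)) :
    ∃ K C' T1 : ℝ, 0 ≤ K ∧ 0 ≤ C' ∧ ∀ T : ℝ, T1 ≤ T → ∃ F : ℝ → ℝ,
      Dom s (8 * T) C' ((b - 1 - 2 * ε) * Real.log T) ((b + 1 / 2 + 2 * ε) * Real.log T)
        (fun v => K * Real.exp (α * v) * T ^ (-1 : ℝ)) F := by
  obtain ⟨v0, hv0⟩ := ker s θ α C y0 hs hθ hθ1 hα hα1 hC hOS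
  set β : ℝ := b - 1 - 2 * ε with hβ
  have hβ0 : 0 < β := by
    by_contra h
    push Not at h
    have : (1 - θ) * β ≤ 0 := mul_nonpos_of_nonneg_of_nonpos (by linarith) h
    linarith
  set γ : ℝ := (1 - θ) * β - 1 with hγ
  have hγ0 : 0 < γ := by linarith
  refine ⟨2 * C, 10 + 2 * C, max (max 1 (512 ^ (1 / γ))) (Real.exp (|v0| / β)), by positivity, by positivity,
    fun T hT => ?_⟩
  have hT1 : 1 ≤ T := (le_max_left _ _).trans ((le_max_left _ _).trans hT)
  have hTa : (512 : ℝ) ^ (1 / γ) ≤ T := (le_max_right _ _).trans ((le_max_left _ _).trans hT)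
  have hTb : Real.exp (|v0| / β) ≤ T := (le_max_right _ _).trans hT
  have hT0 : 0 < T := by linarith
  have hL0 : 0 ≤ Real.log T := Real.log_nonneg hT1
  have hTinv : T ^ (-1 : ℝ) = T⁻¹ := Real.rpow_neg_one T
  have hTi0 : 0 < T⁻¹ := inv_pos.2 hT0
  have hTi1 : T⁻¹ ≤ 1 := inv_le_one_of_one_le₀ hT1
  have h512 : 512 ≤ T ^ γ := by
    have h1 := Real.rpow_le_rpow (by positivity) hTa hγ0.le
    rw [← Real.rpow_mul (by norm_num), one_div, inv_mul_cancel₀ hγ0.ne', Real.rpow_one] at h1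
    exact h1
  have hv0L : v0 ≤ β * Real.log T := by
    have h1 : |v0| / β ≤ Real.log T := (Real.le_log_iff_exp_le hT0).2 hTb
    rw [div_le_iff₀ hβ0] at h1
    have := le_abs_self v0
    linarith
  set κ : ℝ → ℝ := fun v => 2 * C * Real.exp (α * v) * T ^ (-1 : ℝ) with hκ
  have hκ0 : ∀ v, 0 ≤ κ v := fun v => by
    rw [hκ]
    positivity
  have hnn : ∀ v : ℝ, β * Real.log T ≤ v → 0 ≤ s * Dv (8 * T) v + κ v := by
    intro v hv
    have h1 : 64 * (8 * T) ≤ Real.exp ((1 - θ) * v) := by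
      have h2 : (1 - θ) * (β * Real.log T) ≤ (1 - θ) * v := mul_le_mul_of_nonneg_left hv (by linarith)
      have h3 : Real.exp ((1 - θ) * (β * Real.log T)) = T ^ γ * T := by
        have h4 : T ^ γ * T = T ^ (γ + 1) := by
          rw [Real.rpow_add hT0, Real.rpow_one]
        rw [h4, Real.rpow_def_of_pos hT0]
        congr 1
        rw [hγ]
        ring
      calc 64 * (8 * T) = 512 * T := by ring
        _ ≤ T ^ γ * T := mul_le_mul_of_nonneg_right h512 hT0.le
        _ = Real.exp ((1 - θ) * (β * Real.log T)) := h3.symm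
        _ ≤ _ := Real.exp_le_exp.2 h2
    have h5 := hv0 (8 * T) v (by linarith) (hv0L.trans hv) h1
    have h6 : 2 * C * Real.exp (α * v) / (8 * T) ≤ κ v := by
      show 2 * C * Real.exp (α * v) / (8 * T) ≤ 2 * C * Real.exp (α * v) * T ^ (-1 : ℝ)
      rw [hTinv, div_eq_mul_inv]
      refine mul_le_mul_of_nonneg_left ?_ (by positivity)
      exact inv_anti₀ hT0 (by linarith)
    linarith
  have hsabs : |s| = 1 := by
    rcases hs with h | h
    · rw [h, abs_one]
    · rw [h, abs_neg, abs_one]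
  have hsum : ∀ v : ℝ, β * Real.log T + 1 ≤ v →
      0 ≤ (10 + 2 * C) / (8 * T) * ∑ i ∈ range 11, (s * Dv (8 * T) (v + ((i : ℝ) - 5) / (8 * T)) +
        κ (v + ((i : ℝ) - 5) / (8 * T))) := by
    intro v hv
    refine mul_nonneg (by positivity) (sum_nonneg fun i _ => hnn _ ?_)
    have h1 : -1 ≤ ((i : ℝ) - 5) / (8 * T) := by
      rw [le_div_iff₀ (by positivity)]
      have : (0 : ℝ) ≤ i := Nat.cast_nonneg i
      linarith
    linarith
  refine ⟨fun v => s * Dv (8 * T) v + κ v, ?_, ?_, ?_, ?_, ?_⟩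
  · have hcont : Continuous fun v => s * Dv (8 * T) v + κ v := by
      have h1 : Continuous (Dv (8 * T)) := dv_cont (by positivity)
      have h2 : Continuous κ := by
        rw [hκ]
        fun_prop
      exact (continuous_const.mul h1).add h2
    exact hcont.measurable
  · intro v hv _
    exact hnn v hv
  · intro v hv _
    have hv' : 0 ≤ v := le_trans (by positivity) hv
    have h1 := dv_abs (show (0 : ℝ) < 8 * T by positivity) v
    have h2 : s * Dv (8 * T) v ≤ 10 * Real.exp v := by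
      refine (le_abs_self _).trans ?_
      rw [abs_mul, hsabs, one_mul]
      exact h1
    have h3 : Real.exp v ≤ Real.exp (2 * v) := Real.exp_le_exp.2 (by linarith)
    have h4 : κ v ≤ 2 * C * Real.exp (2 * v) := by
      show 2 * C * Real.exp (α * v) * T ^ (-1 : ℝ) ≤ _
      rw [hTinv]
      have h5 : Real.exp (α * v) ≤ Real.exp (2 * v) := Real.exp_le_exp.2 (by nlinarith)
      calc 2 * C * Real.exp (α * v) * T⁻¹ ≤ 2 * C * Real.exp (α * v) * 1 :=
            mul_le_mul_of_nonneg_left hTi1 (by positivity)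
        _ = 2 * C * Real.exp (α * v) := mul_one _
        _ ≤ _ := mul_le_mul_of_nonneg_left h5 (by positivity)
    have h6 : (10 + 2 * C) * Real.exp (2 * v) = 10 * Real.exp (2 * v) + 2 * C * Real.exp (2 * v) := by ring
    show s * Dv (8 * T) v + κ v ≤ (10 + 2 * C) * Real.exp (2 * v)
    rw [h6]
    linarith
  · intro v hv _
    have := hsum v hv
    show s * Dv (8 * T) v + κ v ≤ s * Dv (8 * T) v + κ v + _
    linarith
  · intro v hv _
    have h1 := hsum v hv
    have h2 := hnn v (by linarith)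
    have h3 := hκ0 v
    have h4 : |Dv (8 * T) v| = |s * Dv (8 * T) v| := by rw [abs_mul, hsabs, one_mul]
    have h5 : |s * Dv (8 * T) v| ≤ (s * Dv (8 * T) v + κ v) + κ v := by
      rw [abs_le]
      constructor <;> linarith
    rw [h4]
    show |s * Dv (8 * T) v| ≤ (s * Dv (8 * T) v + κ v) + κ v + _
    linarith

end Pool.Agent.H27.TS
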