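import Mathlib

/-!
# [H27 TS LND] Landau's theorem for Dirichlet series with nonnegative coefficients

`a(n) ≥ 0`, `∑ a(n) n^(-x)` converges for real `x > x1`, and the sum continues to a function `G`, complex differentiable on
an open set `Ω` which contains all real `x > x0`. Then the series converges for all real `x > x0`.

PROOF. Let `S = {x : Summable (a(n) n^(-x))}` (an up-set), `β = sInf` of it (or the abscissa), suppose `x0 < β`
(otherwise done). `A(z) = LSeries a z` is analytic on `Re z > β` (`LSeries_differentiableOn` / `LSeries_analyticOnNhd`,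
abscissa of absolute convergence `≤ β`), and `A = G` on the real half-line `(β, ∞)`: both are analytic along the connected
set `(β,∞)` and agree on `(x1, ∞)` (identity theorem for the restrictions to `ℝ`, `AnalyticOnNhd.eqOn_of_preconnected_of_eventuallyEq`).
Take `r` with `ball β r ⊆ Ω`; on the convex set `ball β r ∩ {Re > β}` `A = G` (identity theorem again). So
`H = G` on `ball β r`, `= A` elsewhere on `Re z > β`, is well defined and differentiable on the open set
`{Re > β} ∪ ball β r`, which contains `ball c (1+η)`, `c = β + 1`, if `2η + η² < r²`: for `Re z ≤ β`,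
`|z - c|² = |z - β|² + 2(β - Re z) + 1`. Taylor (`Complex.hasSum_taylorSeries_on_ball`) at `z = c - (1 + η/2)`:
`∑_k (1+η/2)^k (-1)^k H^(k)(c) / k!` converges, `(-1)^k H^(k)(c) = ∑_n a(n) (log n)^k n^(-c)` (`LSeries_iteratedDeriv`).
All terms are `≥ 0`: exchange (`summable_prod_of_nonneg`, or ENNReal): `∑_n a(n) n^(-c) n^(1+η/2)` converges, that is at
`β - η/2 < β`: contradiction.
-/

set_option autoImplicit false

namespace Pool.Agent.H27.TS

theorem lnd (a : ℕ → ℝ) (ha : ∀ n, 0 ≤ a n) (x0 x1 : ℝ)
    (hsum : ∀ x : ℝ, x1 < x → Summable fun n : ℕ => a n * (n : ℝ) ^ (-x))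
    (Ω : Set ℂ) (hΩ : IsOpen Ω) (hΩ0 : ∀ x : ℝ, x0 < x → (x : ℂ) ∈ Ω) (G : ℂ → ℂ) (hG : DifferentiableOn ℂ G Ω)
    (heq : ∀ x : ℝ, x1 < x → G x = LSeries (fun n => (a n : ℂ)) x) :
    ∀ x : ℝ, x0 < x → Summable fun n : ℕ => a n * (n : ℝ) ^ (-x) := by
  sorry

end Pool.Agent.H27.TS
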