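import Mathlib

/-!
# [H27 TS RZ] zeta has no real zero in `(0,1)`

PROOF. For `0 < σ < 1`: `ζ(σ) = σ/(σ-1) - σ ∫_1^∞ {x} x^(-σ-1) dx < 0`. Ways: (a) Mathlib's
`Mathlib/NumberTheory/Harmonic/ZetaAsymp.lean` or `riemannZeta₀`/`riemannZeta₁` formulas, analytic continuation of
`ζ(s) = s/(s-1) - s ∫ {x} x^(-s-1)` from `Re s > 1` to `Re s > 0` (identity theorem; the integral is analytic);
(b) `η(σ) = ∑ (-1)^(n-1) n^(-σ) = (1 - 2^(1-σ)) ζ(σ)`, `η > 0`, continuation of the identity from `Re s > 1`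
(`∑ ((2n-1)^(-s) - (2n)^(-s))` is locally uniformly absolutely convergent on `Re s > 0`): this is easy because each bracket
is positive for real `σ`; (c) `ζ(s) = lim (∑_(n ≤ N) n^(-s) - N^(1-s)/(1-s))`; see `Pool/Agent/H48/WN/Zap.lean`,
`Pool/Agent/H24/WH/Zrp.lean`, `H48/OM/ZNZ.lean` for what is there.
-/

set_option autoImplicit false

namespace Pool.Agent.H27.TS

theorem rz (σ : ℝ) (h0 : 0 < σ) (h1 : σ < 1) : riemannZeta (σ : ℂ) ≠ 0 := by
  sorry

end Pool.Agent.H27.TS
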