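import Pool.Agent.H27.TS.Defs
import Pool.Agent.H27.TS.Rz
import Pool.Agent.H27.TS.Lnd
import Pool.Agent.H48.OM.PsiSer

/-!
# [H27 TS LAN] Landau: a one-sided bound for `ψ(n) - n` gives a bound in the mean

PROOF. `a(n) = s (ψ(n) - n) + C n^α ≥ 0` for `n ≥ 1` (`a 0 = 0`). As in `Pool/Agent/H48/OM/Landau.lean` (header and lemmas
`lan_term`, `lan_pow`, `lan_F`: copy them; `psi_series`): for `Re s > 1`,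
`LSeries a (z+1) = s (-ζ'/ζ(z)/z + K(z) - ζ(z)) + C ζ(z + 1 - α)`. With `ζ(z) = (z-1)⁻¹ + ζ₀(z)`, `-ζ'/ζ = 1/(z-1) - ζ₁'/ζ₁`
the pole at `z = 1` cancels: the right side is `G(z) = s (-1/z - ζ₁'(z)/(z ζ₁(z)) - ζ₀(z) + K(z)) + C ζ(z+1-α)`,
differentiable on the open set `Ω = {Re z > 0, ζ₁(z) ≠ 0, z ≠ α}`, which contains every real `z > α` (`rz` for
`α < z < 1`; `riemannZeta_ne_zero_of_one_le_re` and `ζ₁(1) = 1` for `z ≥ 1`; `ζ₁(z) = (z-1) ζ(z)`). `lnd` in the variable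
`z + 1` (`x0 = α + 1`, `x1 = 2`): `∑ a(n) n^(-1-σ) < ∞` for `σ > α`, so `∑ |ψ(n) - n| n^(-1-σ) ≤ ∑ (a(n) + C n^α) n^(-1-σ) < ∞`.
In the logarithmic scale: for `e^v ∈ [n, n+1)`: `|Dl v| ≤ |ψ(n) - n| + 1`, `dv = dy/y`, so
`∫_V^(V+4) |Dl| dv ≤ ∑_(e^V - 1 ≤ n ≤ e^(V+4)) (|ψ(n) - n| + 1)/n ≤ C'' e^(σV) ∑ (|ψ(n) - n| + 1) n^(-1-σ)` (`n ≥ 1`; `n^σ ≤ C e^(σV)`).
-/

set_option autoImplicit false

namespace Pool.Agent.H27.TS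

open MeasureTheory Finset Pool.Agent.H48.WN Pool.Agent.H24.WH

theorem lan (s α C : ℝ) (hs : s = 1 ∨ s = -1) (hα : 0 < α) (hα1 : α < 1) (hC : 0 < C)
    (h : ∀ n : ℕ, 1 ≤ n → -(C * (n : ℝ) ^ α) ≤ s * (Chebyshev.psi n - n)) (σ : ℝ) (hσ : α < σ) :
    ∃ C' : ℝ, 0 < C' ∧ HL σ C' := by
  sorry

end Pool.Agent.H27.TS
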