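import Pool.Agent.H27.TS.Defs

/-!
# [H27 TS OSL] one-sided bound for `ψ(x) - x`

PROOF. `g(x) = s (ψ(x) - x)`. For `x` large, `y = x/2`, `h = y` (`8 y^θ ≤ y`): `g(x) = g(y) + s Ps y y ≥ g(y) - C y^α`
(`Ps y h = ψ(y+h) - ψ(y) - h`). Strong induction on real `x` by halving (down to a fixed `x0`, where `|g| ≤ 5 x0`):
`g(x) ≥ -C' x^α` with `C' (1 - 2^(-α)) ≥ C 2^(-α)`, `C' ≥ 5 x0`.
-/

set_option autoImplicit false

namespace Pool.Agent.H27.TS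

open MeasureTheory Finset Pool.Agent.H48.WN Pool.Agent.H24.WH

theorem osl (s θ α C y0 : ℝ) (hs : s = 1 ∨ s = -1) (hθ1 : θ < 1) (hα : 0 < α) (hC : 0 < C)
    (h : OS s θ α C y0) :
    ∃ C' : ℝ, 0 < C' ∧ ∀ n : ℕ, 1 ≤ n → -(C' * (n : ℝ) ^ α) ≤ s * (Chebyshev.psi n - n) := by
  sorry

end Pool.Agent.H27.TS
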