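import Pool.Agent.H27.TS.Defs
import Pool.Agent.H48.WN.Ppw

/-!
# [H27 TS PCS] from integers to `OS`

PROOF. `y` large, `8 y^θ ≤ h ≤ y`, `n = ⌊y⌋₊`, `m = ⌊y + h⌋₊ - n`, so `|m - h| ≤ 1`. CUT `(n, n+m]` into intervals
`(n_j, n_j + m_j]` with `n_j^θ ≤ m_j ≤ 2 n_j^θ`: greedy, as long as the rest `r` is `≥ 8 n_j^θ` take
`m_j = ⌈1.5 n_j^θ⌉`; then `r` stays `≥ 6 n_j^θ` (`n_(j+1)^θ ≤ n_j^θ (1 + 2 n_j^(θ-1)) `, so for large `y` the drift is
negligible); at the end `6 n^θ ≤ r < 8 n^θ`: `k = ⌈r / (1.6 n^θ)⌉ ∈ {4, 5}` pieces of nearly equal length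
(`r / k` between `1.26 n^θ` and `1.6 n^θ`, rounding and drift negligible). (An induction on `r`; state it as: for large `n`
and every `r` with `6 n^θ ≤ r ≤ 3 n`, ... `-s ET n r ≥ -r n^(δ-θ) · C`.) The number of pieces is `≤ 1 + m / y^θ` and each one
has `-s ET n_j m_j ≥ -(3y)^δ ≥ -3 y^δ`; `ET` is additive. So `-s ET n m ≥ -C h y^(δ-θ) = -C h y^(α-1)`.
`-s Ps y h = -s ET n m - s (m - h) - s pp` where `pp ≥ 0` is the contribution of proper prime powers in `(y, y+h]`,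
`pp ≤ C (h / √y + 1) (log y)^2` (see the private lemmas of `H48/WN/Ppw`, constant 6: copy them). `h/√y ≤ h y^(α-1) y^(-c)`
(`α > 1/2`), and `1 ≤ h y^(α-1) / y^δ`, as `h ≥ y^θ`, `θ + α - 1 = δ > 0`: both are absorbed for large `y`.
-/

set_option autoImplicit false

namespace Pool.Agent.H27.TS

open MeasureTheory Finset Pool.Agent.H48.WN Pool.Agent.H24.WH

private theorem pcs_D (x h : ℝ) : Ps x h - Th x h =
    ∑ n ∈ (Ioc ⌊x⌋₊ ⌊x + h⌋₊).filter (fun n => ¬ n.Prime), ArithmeticFunction.vonMangoldt n := by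
  unfold Ps Th
  have h1 := sum_filter_add_sum_filter_not (Ioc ⌊x⌋₊ ⌊x + h⌋₊) (fun n => n.Prime)
    (fun n => ArithmeticFunction.vonMangoldt n)
  have h2 : ∑ n ∈ (Ioc ⌊x⌋₊ ⌊x + h⌋₊).filter (fun n => n.Prime), ArithmeticFunction.vonMangoldt n =
      ∑ p ∈ (Ioc ⌊x⌋₊ ⌊x + h⌋₊).filter Nat.Prime, Real.log p := by
    refine sum_congr rfl fun p hp => ?_
    rw [mem_filter] at hp
    exact ArithmeticFunction.vonMangoldt_apply_prime hp.2
  rw [← h1, h2]
  ring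

private theorem pcs_diam (S : Finset ℕ) (δ : ℝ) (hδ : 0 ≤ δ)
    (h : ∀ m ∈ S, ∀ m' ∈ S, m < m' → (m' : ℝ) - m ≤ δ) : (S.card : ℝ) ≤ δ + 1 := by
  rcases S.eq_empty_or_nonempty with rfl | hS
  · simp; linarith
  · set a := S.min' hS
    set b := S.max' hS
    have hab : a ≤ b := S.min'_le_max' hS
    have h1 : (b : ℝ) - a ≤ δ := by
      rcases hab.eq_or_lt with h2 | h2
      · rw [h2]; simpa using hδ
      · exact h a (S.min'_mem hS) b (S.max'_mem hS) h2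
    have h2 : S ⊆ Icc a b := fun m hm => mem_Icc.2 ⟨S.min'_le m hm, S.le_max' m hm⟩
    have h3 := card_le_card h2
    rw [Nat.card_Icc] at h3
    have h4 : (S.card : ℝ) ≤ ((b + 1 - a : ℕ) : ℝ) := by exact_mod_cast h3
    rw [Nat.cast_sub (by omega)] at h4
    push_cast at h4
    linarith

private theorem pcs_M (X x h : ℝ) (hX : 10 ≤ X) (hx : X ≤ x) (hh : 0 ≤ h) (k B : ℕ) (hk : 2 ≤ k) :
    ((((range B).filter (fun m : ℕ => x < (m : ℝ) ^ k ∧ (m : ℝ) ^ k ≤ x + h)).card : ℕ) : ℝ) ≤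
      h / Real.sqrt X + 1 := by
  have hX0 : 0 < X := by linarith
  have hs : 0 < Real.sqrt X := Real.sqrt_pos.2 hX0
  refine pcs_diam _ _ (by positivity) fun m hm m' hm' hlt => ?_
  rw [mem_filter] at hm hm'
  rw [le_div_iff₀ hs]
  have hltR : (m : ℝ) < m' := by exact_mod_cast hlt
  have hm1 : 1 ≤ m := by
    rcases Nat.eq_zero_or_pos m with h0 | h0
    · exfalso
      have h1 := hm.2.1
      rw [h0, Nat.cast_zero, zero_pow (by omega)] at h1
      linarith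
    · exact h0
  have hm1R : (1 : ℝ) ≤ m := by exact_mod_cast hm1
  have h1 : Real.sqrt X ≤ (m : ℝ) ^ (k - 1) := by
    rw [Real.sqrt_le_left (by positivity), ← pow_mul]
    calc X ≤ (m : ℝ) ^ k := by linarith [hm.2.1]
      _ ≤ (m : ℝ) ^ ((k - 1) * 2) := pow_le_pow_right₀ hm1R (by omega)
  have h2 : (m : ℝ) ^ (k - 1) * m = (m : ℝ) ^ k := by
    rw [← pow_succ]
    congr 1
    omega
  have h3 : (m : ℝ) ^ (k - 1) * m' ≤ (m' : ℝ) ^ k := by
    have h4 : (m' : ℝ) ^ (k - 1) * m' = (m' : ℝ) ^ k := by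
      rw [← pow_succ]
      congr 1
      omega
    rw [← h4]
    exact mul_le_mul_of_nonneg_right (pow_le_pow_left₀ (by positivity) hltR.le _) (by positivity)
  have h5 : ((m' : ℝ) - m) * Real.sqrt X ≤ ((m' : ℝ) - m) * (m : ℝ) ^ (k - 1) :=
    mul_le_mul_of_nonneg_left h1 (by linarith)
  nlinarith [hm.2.1, hm'.2.2]

private theorem pcs_log4 {X : ℝ} (hX : 10 ≤ X) : Real.log (4 * X) ≤ 2 * Real.log X := by
  rw [Real.log_mul (by norm_num) (by linarith)]
  have : Real.log 4 ≤ Real.log X := Real.log_le_log (by norm_num) (by linarith)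
  linarith

private theorem pcs_one {X : ℝ} (hX : 10 ≤ X) : 1 ≤ Real.log X := by
  rw [Real.le_log_iff_exp_le (by linarith)]
  have := Real.exp_one_lt_d9
  linarith

private theorem pcs_sup (X x h : ℝ) (hX : 10 ≤ X) (hx : X ≤ x) (hx2 : x ≤ 3 * X) (hh : 0 ≤ h)
    (hh2 : h ≤ X) : Ps x h - Th x h ≤ 6 * Real.log X ^ 2 * (h / Real.sqrt X + 1) := by
  have hX0 : 0 < X := by linarith
  have hs : 0 < Real.sqrt X := Real.sqrt_pos.2 hX0
  have hL := pcs_one hX
  have hL4 := pcs_log4 hX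
  rw [pcs_D]
  set N := ⌊4 * X⌋₊ with hN
  set K := Nat.log 2 N with hK
  set P := (Ioc ⌊x⌋₊ ⌊x + h⌋₊).filter (fun n => ¬ n.Prime ∧ ArithmeticFunction.vonMangoldt n ≠ 0) with hP
  have hsum : ∑ n ∈ (Ioc ⌊x⌋₊ ⌊x + h⌋₊).filter (fun n => ¬ n.Prime), ArithmeticFunction.vonMangoldt n =
      ∑ n ∈ P, ArithmeticFunction.vonMangoldt n := by
    symm
    refine sum_subset ?_ ?_
    · intro n hn
      rw [hP, mem_filter] at hn
      exact mem_filter.2 ⟨hn.1, hn.2.1⟩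
    · intro n hn hn2
      rw [mem_filter] at hn
      by_contra h0
      exact hn2 (by rw [hP]; exact mem_filter.2 ⟨hn.1, hn.2, h0⟩)
  rw [hsum]
  have hx0 : 0 ≤ x := by linarith
  have hmem : ∀ n ∈ P, x < (n : ℝ) ∧ (n : ℝ) ≤ x + h ∧ (n : ℝ) ≤ 4 * X := by
    intro n hn
    rw [hP, mem_filter, mem_Ioc] at hn
    have h1 : x < (n : ℝ) := (Nat.floor_lt hx0).1 hn.1.1
    have h2 : (n : ℝ) ≤ x + h := (Nat.le_floor_iff (by linarith)).1 hn.1.2
    exact ⟨h1, h2, by linarith⟩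
  have hle : ∀ n ∈ P, ArithmeticFunction.vonMangoldt n ≤ Real.log (4 * X) := by
    intro n hn
    obtain ⟨h1, h2, h3⟩ := hmem n hn
    refine ArithmeticFunction.vonMangoldt_le_log.trans ?_
    exact Real.log_le_log (by linarith) h3
  have hsub : P ⊆ (Icc 2 K).biUnion fun k =>
      ((range (N + 1)).filter (fun m : ℕ => x < (m : ℝ) ^ k ∧ (m : ℝ) ^ k ≤ x + h)).image (fun m => m ^ k) := by
    intro n hn
    obtain ⟨h1, h2, h3⟩ := hmem n hn
    have hn' := hn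
    rw [hP, mem_filter, mem_Ioc] at hn'
    have hpp := ArithmeticFunction.vonMangoldt_ne_zero_iff.1 hn'.2.2
    obtain ⟨p, k, hp, hk, rfl⟩ := (isPrimePow_nat_iff _).1 hpp
    have hk2 : 2 ≤ k := by
      by_contra hlt
      have : k = 1 := by omega
      rw [this, pow_one] at hn'
      exact hn'.2.1 hp
    rw [mem_biUnion]
    have hnN : p ^ k ≤ N := by
      rw [hN]
      exact Nat.le_floor h3
    refine ⟨k, mem_Icc.2 ⟨hk2, ?_⟩, mem_image.2 ⟨p, mem_filter.2 ⟨mem_range.2 ?_, ?_⟩, rfl⟩⟩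
    · rw [hK]
      refine Nat.le_log_of_pow_le (by norm_num) (le_trans ?_ hnN)
      exact Nat.pow_le_pow_left hp.two_le k
    · have : p ≤ p ^ k := Nat.le_self_pow (by omega) p
      omega
    · push_cast at h1 h2
      exact ⟨h1, h2⟩
  have hcard : (P.card : ℝ) ≤ K * (h / Real.sqrt X + 1) := by
    have h1 := card_le_card hsub
    have h2 := h1.trans card_biUnion_le
    have h3 : (P.card : ℝ) ≤ ∑ k ∈ Icc 2 K, (h / Real.sqrt X + 1) := by
      calc (P.card : ℝ) ≤ ((∑ k ∈ Icc 2 K, (((range (N + 1)).filter (fun m : ℕ => x < (m : ℝ) ^ k ∧ (m : ℝ) ^ k ≤ x + h)).image (fun m => m ^ k)).card : ℕ) : ℝ) := by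
            exact_mod_cast h2
        _ = ∑ k ∈ Icc 2 K, ((((range (N + 1)).filter (fun m : ℕ => x < (m : ℝ) ^ k ∧ (m : ℝ) ^ k ≤ x + h)).image (fun m => m ^ k)).card : ℝ) := by
            push_cast
            rfl
        _ ≤ _ := by
            refine sum_le_sum fun k hk => ?_
            rw [mem_Icc] at hk
            refine le_trans ?_ (pcs_M X x h hX hx hh k (N + 1) hk.1)
            exact_mod_cast card_image_le
    refine h3.trans ?_
    rw [sum_const, nsmul_eq_mul]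
    refine mul_le_mul_of_nonneg_right ?_ (by positivity)
    rw [Nat.card_Icc]
    exact_mod_cast (by omega : K + 1 - 2 ≤ K)
  have hKL : (K : ℝ) ≤ 3 * Real.log X := by
    have hN0 : N ≠ 0 := by
      have : 1 ≤ N := by
        rw [hN]
        exact Nat.le_floor (by norm_num; linarith)
      omega
    have h1 : 2 ^ K ≤ N := Nat.pow_log_le_self 2 hN0
    have h2 : ((2 : ℝ)) ^ K ≤ 4 * X := by
      calc ((2 : ℝ)) ^ K = ((2 ^ K : ℕ) : ℝ) := by push_cast; rfl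
        _ ≤ (N : ℝ) := by exact_mod_cast h1
        _ ≤ 4 * X := Nat.floor_le (by linarith)
    have h3 := Real.log_le_log (by positivity) h2
    rw [Real.log_pow] at h3
    have h4 := Real.log_two_gt_d9
    have h5 : (K : ℝ) * 0.69 ≤ K * Real.log 2 := mul_le_mul_of_nonneg_left (by linarith) (by positivity)
    nlinarith
  calc ∑ n ∈ P, ArithmeticFunction.vonMangoldt n ≤ ∑ n ∈ P, Real.log (4 * X) := sum_le_sum hle
    _ = P.card * Real.log (4 * X) := by rw [sum_const, nsmul_eq_mul]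
    _ ≤ (K * (h / Real.sqrt X + 1)) * (2 * Real.log X) := by
        refine mul_le_mul hcard hL4 (Real.log_nonneg (by linarith)) (by positivity)
    _ ≤ ((3 * Real.log X) * (h / Real.sqrt X + 1)) * (2 * Real.log X) := by
        gcongr
    _ = _ := by ring

private theorem pcs_add (n m r : ℕ) (hm : m ≤ r) : ET n r = ET n m + ET (n + m) (r - m) := by
  unfold ET
  have h1 : n + m + (r - m) = n + r := by omega
  rw [h1, sum_filter, sum_filter, sum_filter,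
    ← sum_Ioc_consecutive (fun p : ℕ => if p.Prime then Real.log p else 0) (show n ≤ n + m by omega)
      (show n + m ≤ n + r by omega), Nat.cast_sub hm]
  ring

private theorem pcs_cut (θ δ s : ℝ) (hθ : 0 < θ) (hθ1 : θ < 1) (hδθ : δ ≤ θ) (N1 : ℕ)
    (h1 : ∀ n : ℕ, N1 ≤ n → 100 ≤ (n : ℝ) ^ θ)
    (h2 : ∀ n : ℕ, N1 ≤ n → (n : ℝ) ^ θ ≤ 0.005 * n)
    (h : ∀ n m : ℕ, N1 ≤ n → (n : ℝ) ^ θ ≤ m → (m : ℝ) ≤ 2 * (n : ℝ) ^ θ → s * ET n m ≤ (n : ℝ) ^ δ) :
    ∀ r n : ℕ, N1 ≤ n → 2.1 * (n : ℝ) ^ θ ≤ r → s * ET n r ≤ r * (n : ℝ) ^ (δ - θ) := by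
  have hpos : ∀ n : ℕ, N1 ≤ n → (0 : ℝ) < n := by
    intro n hn
    rcases Nat.eq_zero_or_pos n with h0 | h0
    · exfalso
      have h3 := h1 n hn
      rw [h0, Nat.cast_zero, Real.zero_rpow hθ.ne'] at h3
      linarith
    · exact_mod_cast h0
  have hpc : ∀ n m : ℕ, N1 ≤ n → (n : ℝ) ^ θ ≤ m → (m : ℝ) ≤ 2 * (n : ℝ) ^ θ →
      s * ET n m ≤ m * (n : ℝ) ^ (δ - θ) := by
    intro n m hn hm hm2
    have hn0 := hpos n hn
    refine (h n m hn hm hm2).trans ?_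
    have h3 : (n : ℝ) ^ δ = (n : ℝ) ^ θ * (n : ℝ) ^ (δ - θ) := by
      rw [← Real.rpow_add hn0]
      congr 1
      ring
    rw [h3]
    exact mul_le_mul_of_nonneg_right hm (Real.rpow_nonneg hn0.le _)
  have hdr : ∀ n m : ℕ, N1 ≤ n → (m : ℝ) ≤ 3 * (n : ℝ) ^ θ →
      ((n + m : ℕ) : ℝ) ^ θ ≤ 1.02 * (n : ℝ) ^ θ := by
    intro n m hn hm
    have hn0 := hpos n hn
    have h3 := h2 n hn
    have h4 : ((n + m : ℕ) : ℝ) ≤ 1.02 * n := by
      push_cast
      linarith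
    calc ((n + m : ℕ) : ℝ) ^ θ ≤ (1.02 * (n : ℝ)) ^ θ :=
          Real.rpow_le_rpow (by positivity) h4 hθ.le
      _ = (1.02 : ℝ) ^ θ * (n : ℝ) ^ θ := Real.mul_rpow (by norm_num) hn0.le
      _ ≤ (1.02 : ℝ) ^ (1 : ℝ) * (n : ℝ) ^ θ := by
          refine mul_le_mul_of_nonneg_right ?_ (Real.rpow_nonneg hn0.le _)
          exact Real.rpow_le_rpow_of_exponent_le (by norm_num) hθ1.le
      _ = 1.02 * (n : ℝ) ^ θ := by rw [Real.rpow_one]
  have hmo : ∀ n m : ℕ, N1 ≤ n → ((n + m : ℕ) : ℝ) ^ (δ - θ) ≤ (n : ℝ) ^ (δ - θ) := by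
    intro n m hn
    have hn0 := hpos n hn
    refine Real.rpow_le_rpow_of_nonpos hn0 ?_ (by linarith)
    push_cast
    have : (0 : ℝ) ≤ m := Nat.cast_nonneg m
    linarith
  intro r
  induction r using Nat.strong_induction_on with
  | _ r ih =>
    intro n hn hr
    have hn0 := hpos n hn
    have hg := h1 n hn
    obtain ⟨g, hgd⟩ : ∃ g, g = (n : ℝ) ^ θ := ⟨_, rfl⟩
    rw [← hgd] at hg hr
    by_cases hc : (r : ℝ) ≤ 3.9 * g
    · have e1 : (r : ℝ) ≤ 2 * ((r / 2 : ℕ) : ℝ) + 1 := by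
        have : r ≤ 2 * (r / 2) + 1 := by omega
        exact_mod_cast this
      have e2 : 2 * ((r / 2 : ℕ) : ℝ) ≤ r := by
        have : 2 * (r / 2) ≤ r := by omega
        exact_mod_cast this
      have e3 : ((r - r / 2 : ℕ) : ℝ) = r - ((r / 2 : ℕ) : ℝ) := Nat.cast_sub (Nat.div_le_self r 2)
      have p1 := hpc n (r / 2) hn (by rw [← hgd]; linarith) (by rw [← hgd]; linarith)
      have d1 := hdr n (r / 2) hn (by rw [← hgd]; linarith)
      rw [← hgd] at d1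
      have d2 : g ≤ ((n + r / 2 : ℕ) : ℝ) ^ θ := by
        rw [hgd]
        refine Real.rpow_le_rpow hn0.le ?_ hθ.le
        push_cast
        have : (0 : ℝ) ≤ ((r / 2 : ℕ) : ℝ) := Nat.cast_nonneg _
        linarith
      have p2 := hpc (n + r / 2) (r - r / 2) (by omega) (by rw [e3]; linarith) (by rw [e3]; linarith)
      have p3 : ((r - r / 2 : ℕ) : ℝ) * ((n + r / 2 : ℕ) : ℝ) ^ (δ - θ) ≤
          ((r - r / 2 : ℕ) : ℝ) * (n : ℝ) ^ (δ - θ) :=
        mul_le_mul_of_nonneg_left (hmo n (r / 2) hn) (Nat.cast_nonneg _)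
      rw [pcs_add n (r / 2) r (Nat.div_le_self r 2), mul_add]
      have e4 : (r : ℝ) * (n : ℝ) ^ (δ - θ) = ((r / 2 : ℕ) : ℝ) * (n : ℝ) ^ (δ - θ) +
          ((r - r / 2 : ℕ) : ℝ) * (n : ℝ) ^ (δ - θ) := by
        rw [e3]
        ring
      rw [e4]
      linarith
    · rw [not_le] at hc
      obtain ⟨m, hm⟩ : ∃ m, m = ⌈1.2 * g⌉₊ := ⟨_, rfl⟩
      have m1 : 1.2 * g ≤ m := by
        rw [hm]
        exact Nat.le_ceil _
      have m2 : (m : ℝ) < 1.2 * g + 1 := by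
        rw [hm]
        exact Nat.ceil_lt_add_one (by linarith)
      have m3 : m ≤ r := by
        have : (m : ℝ) ≤ r := by linarith
        exact_mod_cast this
      have m4 : 1 ≤ m := by
        have : (0 : ℝ) < m := by linarith
        exact_mod_cast this
      have e3 : ((r - m : ℕ) : ℝ) = r - m := Nat.cast_sub m3
      have p1 := hpc n m hn (by rw [← hgd]; linarith) (by rw [← hgd]; linarith)
      have d1 := hdr n m hn (by rw [← hgd]; linarith)
      rw [← hgd] at d1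
      have p2 := ih (r - m) (by omega) (n + m) (by omega) (by rw [e3]; linarith)
      have p3 : ((r - m : ℕ) : ℝ) * ((n + m : ℕ) : ℝ) ^ (δ - θ) ≤
          ((r - m : ℕ) : ℝ) * (n : ℝ) ^ (δ - θ) :=
        mul_le_mul_of_nonneg_left (hmo n m hn) (Nat.cast_nonneg _)
      rw [pcs_add n m r m3, mul_add]
      have e4 : (r : ℝ) * (n : ℝ) ^ (δ - θ) = (m : ℝ) * (n : ℝ) ^ (δ - θ) +
          ((r - m : ℕ) : ℝ) * (n : ℝ) ^ (δ - θ) := by
        rw [e3]
        ring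
      rw [e4]
      linarith

/-- large integers -/
private theorem pcs_large (θ : ℝ) (hθ : 0 < θ) (hθ1 : θ < 1) (N0 : ℕ) :
    ∃ N1 : ℕ, N0 ≤ N1 ∧ (∀ n : ℕ, N1 ≤ n → 100 ≤ (n : ℝ) ^ θ) ∧
      ∀ n : ℕ, N1 ≤ n → (n : ℝ) ^ θ ≤ 0.005 * n := by
  have t1 : Filter.Tendsto (fun n : ℕ => (n : ℝ) ^ θ) Filter.atTop Filter.atTop :=
    (tendsto_rpow_atTop hθ).comp tendsto_natCast_atTop_atTop
  have t2 : Filter.Tendsto (fun n : ℕ => (n : ℝ) ^ (1 - θ)) Filter.atTop Filter.atTop :=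
    (tendsto_rpow_atTop (by linarith)).comp tendsto_natCast_atTop_atTop
  have e1 := t1.eventually_ge_atTop 100
  have e2 := t2.eventually_ge_atTop 200
  obtain ⟨A, hA⟩ := Filter.eventually_atTop.1 (e1.and e2)
  refine ⟨max N0 (max A 1), le_max_left _ _, fun n hn => ?_, fun n hn => ?_⟩
  · exact (hA n (le_trans (le_trans (le_max_left _ _) (le_max_right _ _)) hn)).1
  · have h1 := (hA n (le_trans (le_trans (le_max_left _ _) (le_max_right _ _)) hn)).2
    have h2 : 1 ≤ n := le_trans (le_trans (le_max_right _ _) (le_max_right _ _)) hn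
    have h3 : (0 : ℝ) < n := by exact_mod_cast h2
    have h4 : (n : ℝ) ^ θ * (n : ℝ) ^ (1 - θ) = n := by
      rw [← Real.rpow_add h3]
      have : θ + (1 - θ) = 1 := by ring
      rw [this, Real.rpow_one]
    have h5 : 0 ≤ (n : ℝ) ^ θ := Real.rpow_nonneg h3.le _
    nlinarith

theorem pcs (θ δ α s : ℝ) (hθ : 0 < θ) (hθ1 : θ < 1) (hδ : 0 < δ) (hα : α = δ + 1 - θ) (hα2 : 1 / 2 < α)
    (hα1 : α < 1) (hs : s = 1 ∨ s = -1) (N0 : ℕ)
    (h : ∀ n m : ℕ, N0 ≤ n → (n : ℝ) ^ θ ≤ m → (m : ℝ) ≤ 2 * (n : ℝ) ^ θ → s * ET n m ≤ (n : ℝ) ^ δ) :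
    ∃ C y0 : ℝ, 0 < C ∧ 1 ≤ y0 ∧ OS (-s) θ α C y0 := by
  obtain ⟨N1, hN1, g1, g2⟩ := pcs_large θ hθ hθ1 N0
  have hcut := pcs_cut θ δ s hθ hθ1 (by linarith) N1 g1 g2 (fun n m hn => h n m (hN1.trans hn))
  obtain ⟨ε, hε⟩ : ∃ ε, ε = min (α - 1 / 2) δ := ⟨_, rfl⟩
  have hε0 : 0 < ε := by
    rw [hε]
    exact lt_min (by linarith) hδ
  have hε1 : ε ≤ α - 1 / 2 := by
    rw [hε]
    exact min_le_left _ _
  have hε2 : ε ≤ δ := by
    rw [hε]
    exact min_le_right _ _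
  obtain ⟨M, hM⟩ : ∃ M, M = 4 / ε ^ 2 := ⟨_, rfl⟩
  have hM0 : 0 < M := by
    rw [hM]
    positivity
  refine ⟨5 + 12 * M, (N1 : ℝ) + 10, by positivity, ?_, ?_⟩
  · have : (0 : ℝ) ≤ N1 := Nat.cast_nonneg _
    linarith
  intro y k hy hk hky
  have hN1' : (0 : ℝ) ≤ N1 := Nat.cast_nonneg _
  have hy10 : 10 ≤ y := by linarith
  have hy0 : 0 < y := by linarith
  have hyθ1 : 1 ≤ y ^ θ := Real.one_le_rpow (by linarith) hθ.le
  have hk0 : 0 < k := by linarith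
  obtain ⟨n, hn⟩ : ∃ n, n = ⌊y⌋₊ := ⟨_, rfl⟩
  have n1 : (n : ℝ) ≤ y := by
    rw [hn]
    exact Nat.floor_le hy0.le
  have n2 : y < n + 1 := by
    rw [hn]
    exact Nat.lt_floor_add_one y
  have n3 : N1 ≤ n := by
    have : (N1 : ℝ) ≤ n := by linarith
    exact_mod_cast this
  have hle : ⌊y⌋₊ ≤ ⌊y + k⌋₊ := Nat.floor_le_floor (by linarith)
  obtain ⟨m, hm⟩ : ∃ m, m = ⌊y + k⌋₊ - n := ⟨_, rfl⟩
  have m0 : n + m = ⌊y + k⌋₊ := by
    rw [← hn] at hle
    omega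
  have m1 : ((n : ℝ) + m) ≤ y + k := by
    have h1 : ((⌊y + k⌋₊ : ℕ) : ℝ) ≤ y + k := Nat.floor_le (by linarith)
    rw [← m0] at h1
    push_cast at h1
    exact h1
  have m2 : y + k < (n : ℝ) + m + 1 := by
    have h1 : y + k < ((⌊y + k⌋₊ : ℕ) : ℝ) + 1 := Nat.lt_floor_add_one _
    rw [← m0] at h1
    push_cast at h1
    exact h1
  have m3 : (m : ℝ) - k ≤ 1 := by linarith
  have m4 : -1 ≤ (m : ℝ) - k := by linarith
  have nθ : (n : ℝ) ^ θ ≤ y ^ θ := Real.rpow_le_rpow (Nat.cast_nonneg _) n1 hθ.le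
  have hc := hcut m n n3 (by linarith)
  -- the main identity
  have hPs : Ps y k = ET n m + ((m : ℝ) - k) + (Ps y k - Th y k) := by
    have h1 : Th y k = ET n m + ((m : ℝ) - k) := by
      unfold Th ET
      rw [m0, hn]
      ring
    rw [h1]
    ring
  have hpp0 : 0 ≤ Ps y k - Th y k := by
    rw [pcs_D]
    exact sum_nonneg fun n _ => ArithmeticFunction.vonMangoldt_nonneg
  have hpp := pcs_sup y y k hy10 le_rfl (by linarith) hk0.le hky
  obtain ⟨Z, hZ⟩ : ∃ Z, Z = y ^ (α - 1) := ⟨_, rfl⟩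
  have hZ0 : 0 < Z := by
    rw [hZ]
    exact Real.rpow_pos_of_pos hy0 _
  -- lower bounds for k * Z
  have hkZ : y ^ δ ≤ k * Z := by
    have h1 : y ^ δ = y ^ θ * y ^ (α - 1) := by
      rw [← Real.rpow_add hy0]
      congr 1
      linarith
    rw [h1, ← hZ]
    exact mul_le_mul_of_nonneg_right (by linarith) hZ0.le
  have hkZ1 : 1 ≤ k * Z := le_trans (Real.one_le_rpow (by linarith) hδ.le) hkZ
  have hlog : Real.log y ^ 2 ≤ M * y ^ ε := by
    have h1 := Real.log_le_rpow_div hy0.le (show 0 < ε / 2 by linarith)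
    have h2 : 0 ≤ Real.log y := Real.log_nonneg (by linarith)
    have h3 : (y ^ (ε / 2)) ^ 2 = y ^ ε := by
      rw [← Real.rpow_natCast, ← Real.rpow_mul hy0.le]
      congr 1
      push_cast
      ring
    calc Real.log y ^ 2 ≤ (y ^ (ε / 2) / (ε / 2)) ^ 2 := pow_le_pow_left₀ h2 h1 2
      _ = M * y ^ ε := by
          rw [div_pow, h3, hM]
          field_simp
          ring
  have hs1 : Real.log y ^ 2 * 1 ≤ M * (k * Z) := by
    rw [mul_one]
    refine hlog.trans (mul_le_mul_of_nonneg_left ?_ hM0.le)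
    exact (Real.rpow_le_rpow_of_exponent_le (by linarith) hε2).trans hkZ
  have hs2 : Real.log y ^ 2 * (k / Real.sqrt y) ≤ M * (k * Z) := by
    have h1 : y ^ ε * (k / Real.sqrt y) ≤ k * Z := by
      have h2 : y ^ ε / Real.sqrt y ≤ Z := by
        rw [Real.sqrt_eq_rpow, ← Real.rpow_sub hy0, hZ]
        exact Real.rpow_le_rpow_of_exponent_le (by linarith) (by linarith)
      calc y ^ ε * (k / Real.sqrt y) = k * (y ^ ε / Real.sqrt y) := by ring
        _ ≤ k * Z := mul_le_mul_of_nonneg_left h2 hk0.le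
    calc Real.log y ^ 2 * (k / Real.sqrt y) ≤ M * y ^ ε * (k / Real.sqrt y) :=
          mul_le_mul_of_nonneg_right hlog (by positivity)
      _ = M * (y ^ ε * (k / Real.sqrt y)) := by ring
      _ ≤ M * (k * Z) := mul_le_mul_of_nonneg_left h1 hM0.le
  have hpp2 : Ps y k - Th y k ≤ 12 * M * (k * Z) := by
    refine hpp.trans ?_
    have h1 : 6 * Real.log y ^ 2 * (k / Real.sqrt y + 1) =
        6 * (Real.log y ^ 2 * (k / Real.sqrt y)) + 6 * (Real.log y ^ 2 * 1) := by ring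
    rw [h1]
    linarith
  -- the sum over the primes
  have hET : s * ET n m ≤ 4 * (k * Z) := by
    refine hc.trans ?_
    have hn0 : (0 : ℝ) < n := by linarith
    have h1 : (n : ℝ) ^ (δ - θ) ≤ (y / 2) ^ (δ - θ) :=
      Real.rpow_le_rpow_of_nonpos (by linarith) (by linarith) (by linarith)
    have h2 : (y / 2) ^ (δ - θ) = y ^ (δ - θ) * (2 : ℝ) ^ (θ - δ) := by
      rw [Real.div_rpow hy0.le (by norm_num), div_eq_mul_inv, ← Real.rpow_neg (by norm_num)]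
      congr 2
      ring
    have h3 : (2 : ℝ) ^ (θ - δ) ≤ 2 := by
      calc (2 : ℝ) ^ (θ - δ) ≤ (2 : ℝ) ^ (1 : ℝ) :=
            Real.rpow_le_rpow_of_exponent_le (by norm_num) (by linarith)
        _ = 2 := Real.rpow_one _
    have h4 : y ^ (δ - θ) = Z := by
      rw [hZ]
      congr 1
      linarith
    have h5 : (n : ℝ) ^ (δ - θ) ≤ 2 * Z := by
      refine h1.trans ?_
      rw [h2, h4]
      nlinarith
    have h6 : (m : ℝ) ≤ 2 * k := by linarith
    calc (m : ℝ) * (n : ℝ) ^ (δ - θ) ≤ (2 * k) * (2 * Z) :=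
          mul_le_mul h6 h5 (Real.rpow_nonneg hn0.le _) (by linarith)
      _ = 4 * (k * Z) := by ring
  have hfin : s * Ps y k ≤ (5 + 12 * M) * (k * Z) := by
    have h1 : s * ((m : ℝ) - k) ≤ 1 := by
      rcases hs with h | h <;> rw [h] <;> linarith
    have h2 : s * (Ps y k - Th y k) ≤ 12 * M * (k * Z) := by
      rcases hs with h | h
      · rw [h, one_mul]
        exact hpp2
      · rw [h]
        have : 0 ≤ 12 * M * (k * Z) := by positivity
        linarith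
    have h3 : s * Ps y k = s * ET n m + s * ((m : ℝ) - k) + s * (Ps y k - Th y k) := by
      rw [← mul_add, ← mul_add, ← hPs]
    rw [h3]
    linarith
  rw [← hZ]
  linarith

end Pool.Agent.H27.TS
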