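import Pool.Agent.H27.TS.Core
import Pool.Agent.H27.TS.Dop
import Pool.Agent.H27.TS.Pcs
import Pool.Agent.H27.TS.Osl
import Pool.Agent.H27.TS.Lan

/-!
# [H27 TS FIN] both signs beyond Littlewood at every exponent (weights `log p`)

PROOF. `u = 1 - θ`, `δ0 = 1/2 - u + u/(4(1+u))`. WLOG `δ > 0` and `δ + u > 1/2` (enlarge `δ < δ0`: `δ0 > 1/2 - u`, and
`δ0 > δ ≥ 0`; a larger `δ` is a stronger claim for `n ≥ 1`). `α = δ + u = δ + 1 - θ ∈ (1/2, 1)` (`α < 1/2 + u/(4(1+u)) < 1`).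
Suppose not: `s ET n m ≤ n^δ` for all `n ≥ N0` and all `m`. `pcs`: `OS (-s) θ α C y0`. `osl`, `lan`: `HL σ C1` for every
`σ > α`. Choose `σ ∈ (α, 1/2 + u/(4(1+u)))` and `ε` small, `b = 1/u + 1 + 4ε`, so `u (b - 1 - 2ε) = 1 + 2uε > 1`: `dop`
with `β = α`, `λ = 1` gives `hdom`. `hnum`: all four follow from `(2σ-1) y - σ - 1 + 4ε ≤ -1` as `α ≤ σ`... check each:
with `β = α ≤ σ`, `λ = 1`: first `(2α-1)y - 1 - α + 4ε ≤ -1`, second `(α+σ-1)y - 1 - α + 4ε ≤ -1`, third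
`(2σ-1)y - 1 - σ + 4ε ≤ -1`, fourth `(α+σ-1)y - 1 - σ + 4ε ≤ -1`; all four follow from `(2σ-1) y + 4ε ≤ α`, at
`y ≤ 1/u + 3/2 + 5ε`: `(2σ-1)(1/u + 3/2) < α` when `σ, α` are both close to each other below `1/2 + u/(4(1+u))`: indeed
`(2α-1)(1/u+3/2) < α` iff `α < (2+3u)/(4+4u)`; so choose `σ` close to `α`, then `ε` small. (`core` also wants `1/2 ≤ β`.)
-/

set_option autoImplicit false

namespace Pool.Agent.H27.TS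

open MeasureTheory Finset Pool.Agent.H48.WN Pool.Agent.H24.WH

theorem two_sides (θ δ s : ℝ) (hθ : 0 < θ) (hθ1 : θ < 1) (hδ : 0 ≤ δ)
    (hδ1 : δ < 1 / 2 - (1 - θ) + (1 - θ) / (4 * (2 - θ))) (hs : s = 1 ∨ s = -1) (N0 : ℕ) :
    ∃ n m : ℕ, N0 ≤ n ∧ (n : ℝ) ^ θ ≤ m ∧ (m : ℝ) ≤ 2 * (n : ℝ) ^ θ ∧ (n : ℝ) ^ δ < s * ET n m := by
  sorry

end Pool.Agent.H27.TS
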