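import Pool.Agent.H27.TS.Wtb
import Pool.Agent.H24.WH.Rlh

/-!
# [H27 TS LOW] the smooth short sums are large in mean square somewhere in every window

PROOF. `h = ε/100`. `rlh b h (ε/4)` gives `e` with `2e(b+2) ≤ ε/400`. Suppose for all `V` in the window
`∫_V^(V+1) Dv² < T^(-1-ε) e^V`. For `σ = 1/2 ± e`: `e^V ≤ e^(2σV) T^(2e(b+1))`, so the hypothesis of `wtb` holds with
`W = T^(-1-ε+2e(b+1))` and the two integrals of `rlh` sum to at most `2C T² log T · T^(-1-ε+ε/400) + 2 < T^(1-ε/4)` for large `T`: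
contradiction. (`(1/2 - e : ℝ)` as in `rlh`; `push_cast`.)
-/

set_option autoImplicit false

namespace Pool.Agent.H27.TS

open MeasureTheory Finset Pool.Agent.H48.WN Pool.Agent.H24.WH

theorem low (b ε : ℝ) (hb : 2 ≤ b) (hε : 0 < ε) (hε1 : ε ≤ 1) : ∃ T0 : ℝ, 10 ≤ T0 ∧ ∀ T : ℝ, T0 ≤ T →
    ∃ V : ℝ, b * Real.log T ≤ V ∧ V ≤ (b + 1 / 2 + ε) * Real.log T ∧
      T ^ (-1 - ε) * Real.exp V ≤ ∫ v in V..(V + 1), (Dv (8 * T) v) ^ 2 := by
  sorry

end Pool.Agent.H27.TS
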