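import Pool.Agent.H27.TS.Rep

/-!
# [H27 TS MEZ] the mean of the smooth sum

PROOF. `rep_dl` and Fubini: `∫ om(v-V) Dv U v dv = ∫_0^1 φ'(c) ∫ om(v-V) (Dl(v - c/U) - Dl(v - (c+1)/U)) dv dc`; `om(v-V) = 0`
outside `[V-1,V+2]`, so the inner integral over `ℝ` is, by translation, `∫ Dl(t) (om(t + c/U - V) - om(t + (c+1)/U - V)) dt`;
the bracket is at most `1/U` (`om` is 1-Lipschitz) and `0` outside `[V-2, V+2]` (`(c+1)/U ≤ 1`). `∫ φ' = 1`, `φ' ≥ 0`.
So `C = 1` works (any constant will do).
-/

set_option autoImplicit false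

namespace Pool.Agent.H27.TS

open MeasureTheory Finset Pool.Agent.H48.WN Pool.Agent.H24.WH

/-- trapezoid: `1` on `[0,1]`, `0` outside `[-1,2]` -/
noncomputable def om (t : ℝ) : ℝ := max 0 (min 1 (min (t + 1) (2 - t)))

private theorem mez_om_cont : Continuous om := by
  unfold om
  fun_prop

private theorem mez_om_nonneg (t : ℝ) : 0 ≤ om t := le_max_left _ _

private theorem mez_om_le (t : ℝ) : om t ≤ 1 := max_le zero_le_one (min_le_left _ _)

private theorem mez_om_left {t : ℝ} (ht : t ≤ -1) : om t = 0 := by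
  unfold om
  refine max_eq_left ?_
  exact (min_le_right _ _).trans ((min_le_left _ _).trans (by linarith))

private theorem mez_om_right {t : ℝ} (ht : 2 ≤ t) : om t = 0 := by
  unfold om
  refine max_eq_left ?_
  exact (min_le_right _ _).trans ((min_le_right _ _).trans (by linarith))

private theorem mez_om_lip (x y : ℝ) : |om x - om y| ≤ |x - y| := by
  unfold om
  refine (abs_max_sub_max_le_max _ _ _ _).trans (max_le (by simp) ?_)
  refine (abs_min_sub_min_le_max _ _ _ _).trans (max_le (by simp) ?_)
  refine (abs_min_sub_min_le_max _ _ _ _).trans (max_le (le_of_eq ?_) (le_of_eq ?_))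
  · congr 1
    ring
  · rw [abs_sub_comm x y]
    congr 1
    ring

/-- translation -/
private theorem mez_shift (V s : ℝ) (hs0 : 0 ≤ s) (hs1 : s ≤ 1) :
    ∫ v in (V - 1)..(V + 2), om (v - V) * Dl (v - s) = ∫ t in (V - 2)..(V + 2), om (t + s - V) * Dl t := by
  rw [intervalIntegral.integral_eq_integral_of_support_subset (f := fun v => om (v - V) * Dl (v - s)),
    intervalIntegral.integral_eq_integral_of_support_subset (f := fun t => om (t + s - V) * Dl t)]
  · rw [← integral_add_right_eq_self (fun v => om (v - V) * Dl (v - s)) s]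
    simp only [add_sub_cancel_right]
  · intro t ht
    rw [Function.mem_support] at ht
    by_contra hn
    apply ht
    rw [Set.mem_Ioc, not_and_or, not_lt, not_le] at hn
    rcases hn with hn | hn
    · rw [mez_om_left (by linarith), zero_mul]
    · rw [mez_om_right (by linarith), zero_mul]
  · intro t ht
    rw [Function.mem_support] at ht
    by_contra hn
    apply ht
    rw [Set.mem_Ioc, not_and_or, not_lt, not_le] at hn
    rcases hn with hn | hn
    · rw [mez_om_left (by linarith), zero_mul]
    · rw [mez_om_right (by linarith), zero_mul]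

private theorem mez_int (V s p q : ℝ) : IntervalIntegrable (fun v => om (v - V) * Dl (v - s)) volume p q := by
  have h1 : IntervalIntegrable (fun v => Dl (v - s)) volume p q := by
    have h2 := (dl_int (p - s) (q - s)).comp_sub_right s
    simpa using h2
  refine h1.continuousOn_mul (Continuous.continuousOn ?_)
  exact mez_om_cont.comp (continuous_id.sub continuous_const)

private theorem mez_int2 (V s p q : ℝ) : IntervalIntegrable (fun t => om (t + s - V) * Dl t) volume p q := by
  refine (dl_int p q).continuousOn_mul (Continuous.continuousOn ?_)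
  exact mez_om_cont.comp ((continuous_id.add continuous_const).sub continuous_const)

private theorem mez_inner (U V c : ℝ) (hU : 2 ≤ U) (hc0 : 0 ≤ c) (hc1 : c ≤ 1) :
    |∫ v in (V - 1)..(V + 2), om (v - V) * (Dl (v - c / U) - Dl (v - (c + 1) / U))| ≤
      1 / U * ∫ v in (V - 2)..(V + 2), |Dl v| := by
  have hU0 : 0 < U := by linarith
  have hs1 : 0 ≤ c / U := div_nonneg hc0 hU0.le
  have hs2 : c / U ≤ 1 := by rw [div_le_one hU0]; linarith
  have hs3 : 0 ≤ (c + 1) / U := div_nonneg (by linarith) hU0.le
  have hs4 : (c + 1) / U ≤ 1 := by rw [div_le_one hU0]; linarith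
  have h1 : ∫ v in (V - 1)..(V + 2), om (v - V) * (Dl (v - c / U) - Dl (v - (c + 1) / U)) =
      ∫ t in (V - 2)..(V + 2), (om (t + c / U - V) - om (t + (c + 1) / U - V)) * Dl t := by
    have h2 : ∀ v, om (v - V) * (Dl (v - c / U) - Dl (v - (c + 1) / U)) =
        om (v - V) * Dl (v - c / U) - om (v - V) * Dl (v - (c + 1) / U) := fun v => by ring
    have h3 : ∀ t, (om (t + c / U - V) - om (t + (c + 1) / U - V)) * Dl t =
        om (t + c / U - V) * Dl t - om (t + (c + 1) / U - V) * Dl t := fun t => by ring
    simp only [h2, h3]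
    rw [intervalIntegral.integral_sub (mez_int _ _ _ _) (mez_int _ _ _ _), mez_shift V _ hs1 hs2,
      mez_shift V _ hs3 hs4, intervalIntegral.integral_sub (mez_int2 _ _ _ _) (mez_int2 _ _ _ _)]
  rw [h1, ← intervalIntegral.integral_const_mul, ← Real.norm_eq_abs]
  refine intervalIntegral.norm_integral_le_of_norm_le (by linarith) ?_ ?_
  · refine Filter.Eventually.of_forall fun t _ => ?_
    rw [norm_mul, Real.norm_eq_abs, Real.norm_eq_abs]
    refine mul_le_mul_of_nonneg_right ((mez_om_lip _ _).trans (le_of_eq ?_)) (abs_nonneg _)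
    have h4 : t + c / U - V - (t + (c + 1) / U - V) = -(1 / U) := by ring
    rw [h4, abs_neg, abs_of_pos (by positivity)]
  · exact (dl_int _ _).abs.const_mul _

private theorem mez_cont_deriv : Continuous (deriv Real.smoothTransition) :=
  (Real.smoothTransition.contDiff (n := 1)).continuous_deriv le_rfl

theorem mez : ∃ C : ℝ, 0 < C ∧ ∀ U : ℝ, 2 ≤ U → ∀ V : ℝ,
    |∫ v in (V - 1)..(V + 2), om (v - V) * Dv U v| ≤ C / U * ∫ v in (V - 2)..(V + 2), |Dl v| := by
  refine ⟨1, one_pos, fun U hU V => ?_⟩
  have hU0 : 0 < U := by linarith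
  have h1 : ∀ v, om (v - V) * Dv U v = ∫ c in (0 : ℝ)..1,
      om (v - V) * (deriv Real.smoothTransition c * (Dl (v - c / U) - Dl (v - (c + 1) / U))) := by
    intro v
    rw [intervalIntegral.integral_const_mul, ← rep_dl hU0 v]
  simp only [h1]
  have hswap : ∫ v in (V - 1)..(V + 2), ∫ c in (0 : ℝ)..1,
      om (v - V) * (deriv Real.smoothTransition c * (Dl (v - c / U) - Dl (v - (c + 1) / U))) =
      ∫ c in (0 : ℝ)..1, ∫ v in (V - 1)..(V + 2),
        om (v - V) * (deriv Real.smoothTransition c * (Dl (v - c / U) - Dl (v - (c + 1) / U))) := by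
    refine intervalIntegral_intervalIntegral_swap ?_
    obtain ⟨M, hM⟩ := (isCompact_Icc (a := (0 : ℝ)) (b := 1)).exists_bound_of_continuousOn
      mez_cont_deriv.continuousOn
    have hM0 : 0 ≤ M := (norm_nonneg _).trans (hM 0 (by simp))
    refine Measure.integrableOn_of_bounded (M := M * (10 * Real.exp (V + 2))) ?_ ?_ ?_
    · rw [Measure.volume_eq_prod, Measure.prod_prod, Set.uIoc_of_le (by linarith), Set.uIoc_of_le zero_le_one]
      simp only [Real.volume_Ioc]
      exact ENNReal.mul_ne_top ENNReal.ofReal_ne_top ENNReal.ofReal_ne_top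
    · have hm := dl_meas
      have hd : Measurable (deriv Real.smoothTransition) := mez_cont_deriv.measurable
      have ho : Measurable om := mez_om_cont.measurable
      refine Measurable.aestronglyMeasurable ?_
      unfold Function.uncurry
      exact (ho.comp (measurable_fst.sub_const _)).mul ((hd.comp measurable_snd).mul
        ((hm.comp (measurable_fst.sub (measurable_snd.div_const _))).sub
          (hm.comp (measurable_fst.sub ((measurable_snd.add_const _).div_const _)))))
    · refine (ae_restrict_iff' (measurableSet_uIoc.prod measurableSet_uIoc)).2 (Filter.Eventually.of_forall ?_)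
      rintro ⟨v, c⟩ hvc
      rw [Set.uIoc_of_le (by linarith), Set.uIoc_of_le zero_le_one, Set.mem_prod, Set.mem_Ioc, Set.mem_Ioc] at hvc
      obtain ⟨⟨_, hv2⟩, hc0, hc1⟩ := hvc
      simp only at hv2 hc0 hc1
      show ‖om (v - V) * (deriv Real.smoothTransition c * (Dl (v - c / U) - Dl (v - (c + 1) / U)))‖ ≤ _
      rw [norm_mul, norm_mul]
      have hb1 : ‖om (v - V)‖ ≤ 1 := by
        rw [Real.norm_eq_abs, abs_of_nonneg (mez_om_nonneg _)]
        exact mez_om_le _
      have hb2 : ‖deriv Real.smoothTransition c‖ ≤ M := hM c ⟨hc0.le, hc1⟩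
      have hb3 : ‖Dl (v - c / U) - Dl (v - (c + 1) / U)‖ ≤ 10 * Real.exp (V + 2) := by
        refine (norm_sub_le _ _).trans ?_
        rw [Real.norm_eq_abs, Real.norm_eq_abs]
        have e1 := dl_abs (v - c / U)
        have e2 := dl_abs (v - (c + 1) / U)
        have e3 : Real.exp (v - c / U) ≤ Real.exp (V + 2) := by
          apply Real.exp_le_exp.2
          have : 0 ≤ c / U := div_nonneg hc0.le hU0.le
          linarith
        have e4 : Real.exp (v - (c + 1) / U) ≤ Real.exp (V + 2) := by
          apply Real.exp_le_exp.2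
          have : 0 ≤ (c + 1) / U := div_nonneg (by linarith) hU0.le
          linarith
        linarith
      have hb4 : ‖deriv Real.smoothTransition c‖ * ‖Dl (v - c / U) - Dl (v - (c + 1) / U)‖ ≤
          M * (10 * Real.exp (V + 2)) := mul_le_mul hb2 hb3 (norm_nonneg _) hM0
      calc ‖om (v - V)‖ * (‖deriv Real.smoothTransition c‖ * ‖Dl (v - c / U) - Dl (v - (c + 1) / U)‖)
          ≤ 1 * (M * (10 * Real.exp (V + 2))) :=
            mul_le_mul hb1 hb4 (mul_nonneg (norm_nonneg _) (norm_nonneg _)) zero_le_one
        _ = _ := one_mul _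
  rw [hswap]
  have h2 : ∀ c, (∫ v in (V - 1)..(V + 2),
        om (v - V) * (deriv Real.smoothTransition c * (Dl (v - c / U) - Dl (v - (c + 1) / U)))) =
      deriv Real.smoothTransition c *
        ∫ v in (V - 1)..(V + 2), om (v - V) * (Dl (v - c / U) - Dl (v - (c + 1) / U)) := by
    intro c
    rw [← intervalIntegral.integral_const_mul]
    refine intervalIntegral.integral_congr fun v _ => ?_
    ring
  simp only [h2]
  rw [← Real.norm_eq_abs]
  have h3 : (∫ c in (0 : ℝ)..1, deriv Real.smoothTransition c * (1 / U * ∫ v in (V - 2)..(V + 2), |Dl v|)) =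
      1 / U * ∫ v in (V - 2)..(V + 2), |Dl v| := by
    rw [intervalIntegral.integral_mul_const, st_deriv_int, one_mul]
  rw [← h3]
  refine intervalIntegral.norm_integral_le_of_norm_le zero_le_one ?_ ?_
  · refine Filter.Eventually.of_forall fun c hc => ?_
    rw [norm_mul, Real.norm_eq_abs, Real.norm_eq_abs, abs_of_nonneg (st_deriv_nonneg c)]
    exact mul_le_mul_of_nonneg_left (mez_inner U V c hU hc.1.le hc.2) (st_deriv_nonneg c)
  · exact (mez_cont_deriv.mul continuous_const).intervalIntegrable _ _

end Pool.Agent.H27.TS
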