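import Pool.Agent.H27.TS.Defs
import Pool.Agent.H48.WN.Poi

/-!
# [H27 TS POI2] smooth sums in the logarithmic scale

PROOF. `g(y) = φ(log y)` for `y > 0`, `0` for `y ≤ 0`: smooth (it vanishes for `y ≤ e^p`, `e^p > 0`), compact support in
`[e^p, e^(p+2)]`. By induction `g^(j)(y) = y^(-j) (D_j φ)(log y)`, `D_0 φ = φ`, `D_(j+1) φ = (D_j φ)' - j D_j φ`, so
`|g^(A)(y)| ≤ C_A B U^A y^(-A)` (`U ≥ 1`). `poi` (`H48/WN/Poi`, applied to the complex function): the difference of
`∑_(m ∈ ℤ) g(m) = ∑_(n ≤ N) φ(log n)` and `∫ g = ∫_p^(p+2) φ(t) e^t dt` is at most `∫ |g^(A)| ≤ C_A B U^A e^(-Ap) e^(p+2)`.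
-/

set_option autoImplicit false

namespace Pool.Agent.H27.TS

open MeasureTheory Finset Pool.Agent.H48.WN Pool.Agent.H24.WH

private theorem poi2_of {g : ℝ → ℝ} (hg : ContDiff ℝ (⊤ : ℕ∞) g) (n : ℕ) :
    iteratedDeriv n (fun y => ((g y : ℝ) : ℂ)) = fun y => ((iteratedDeriv n g y : ℝ) : ℂ) := by
  induction n with
  | zero =>
    funext y
    rw [iteratedDeriv_zero, iteratedDeriv_zero]
  | succ n ih =>
    funext y
    rw [iteratedDeriv_succ, ih, iteratedDeriv_succ]
    have h1 : DifferentiableAt ℝ (iteratedDeriv n g) y :=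
      (hg.differentiable_iteratedDeriv n (by exact_mod_cast WithTop.coe_lt_top n)) y
    exact h1.hasDerivAt.ofReal_comp.deriv

/-- the function in the linear scale -/
private noncomputable def poi2_g (φ : ℝ → ℝ) (y : ℝ) : ℝ := if 0 < y then φ (Real.log y) else 0

private theorem poi2_low {φ : ℝ → ℝ} {p : ℝ} (h : ∀ t, t ≤ p → φ t = 0) {y : ℝ}
    (hy : y ≤ Real.exp p) : poi2_g φ y = 0 := by
  unfold poi2_g
  split_ifs with h0
  · exact h _ ((Real.log_le_iff_le_exp h0).2 hy)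
  · rfl

private theorem poi2_high {φ : ℝ → ℝ} {q : ℝ} (h : ∀ t, q ≤ t → φ t = 0) {y : ℝ}
    (hy : Real.exp q ≤ y) : poi2_g φ y = 0 := by
  unfold poi2_g
  split_ifs with h0
  · exact h _ ((Real.le_log_iff_exp_le h0).2 hy)
  · rfl

private theorem poi2_smooth {φ : ℝ → ℝ} (hφ : ContDiff ℝ (⊤ : ℕ∞) φ) {p : ℝ}
    (h : ∀ t, t ≤ p → φ t = 0) : ContDiff ℝ (⊤ : ℕ∞) (poi2_g φ) := by
  rw [contDiff_iff_contDiffAt]
  intro y
  rcases lt_or_ge y (Real.exp p) with hy | hy
  · have h1 : poi2_g φ =ᶠ[nhds y] fun _ => 0 := by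
      filter_upwards [Iio_mem_nhds hy] with z hz
      exact poi2_low h (le_of_lt hz)
    exact contDiffAt_const.congr_of_eventuallyEq h1
  · have hy0 : 0 < y := (Real.exp_pos p).trans_le hy
    have h1 : poi2_g φ =ᶠ[nhds y] fun z => φ (Real.log z) := by
      filter_upwards [Ioi_mem_nhds hy0] with z hz
      unfold poi2_g
      rw [if_pos (show (0 : ℝ) < z from hz)]
    have h2 : ContDiffAt ℝ (⊤ : ℕ∞) (fun z => φ (Real.log z)) y :=
      hφ.contDiffAt.comp y (Real.contDiffAt_log.2 hy0.ne')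
    exact h2.congr_of_eventuallyEq h1

private theorem poi2_rec {φ : ℝ → ℝ} (hφ : ContDiff ℝ (⊤ : ℕ∞) φ) {p U B : ℝ} (hU : 1 ≤ U)
    (hB : 0 ≤ B) (h : ∀ t, t ≤ p → φ t = 0) {A : ℕ}
    (hd : ∀ j : ℕ, j ≤ A → ∀ t, |iteratedDeriv j φ t| ≤ B * U ^ j) (j : ℕ) (hj : j ≤ A) :
    ∃ ψ : ℝ → ℝ, ContDiff ℝ (⊤ : ℕ∞) ψ ∧
      (∀ y : ℝ, 0 < y → iteratedDeriv j (poi2_g φ) y * y ^ j = ψ (Real.log y)) ∧
      ∀ i : ℕ, i + j ≤ A → ∀ t, |iteratedDeriv i ψ t| ≤ (j.factorial : ℝ) * (B * U ^ (i + j)) := by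
  have hgs := poi2_smooth hφ h
  induction j with
  | zero =>
    refine ⟨φ, hφ, fun y hy => ?_, fun i hi t => ?_⟩
    · rw [iteratedDeriv_zero, pow_zero, mul_one]
      unfold poi2_g
      rw [if_pos hy]
    · rw [Nat.factorial_zero, Nat.cast_one, one_mul, add_zero]
      exact hd i (by omega) t
  | succ j ih =>
    obtain ⟨ψ, h1, h2, h3⟩ := ih (by omega)
    have hψ' : ContDiff ℝ (⊤ : ℕ∞) (deriv ψ) := (contDiff_infty_iff_deriv.1 h1).2
    refine ⟨fun t => deriv ψ t - (j : ℝ) * ψ t, hψ'.sub (contDiff_const.mul h1), fun y hy => ?_,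
      fun i hi t => ?_⟩
    · have h4 : DifferentiableAt ℝ (iteratedDeriv j (poi2_g φ)) y :=
        (hgs.differentiable_iteratedDeriv j (by exact_mod_cast WithTop.coe_lt_top j)) y
      have h5 : HasDerivAt (fun z : ℝ => iteratedDeriv j (poi2_g φ) z * z ^ j)
          (deriv (iteratedDeriv j (poi2_g φ)) y * y ^ j +
            iteratedDeriv j (poi2_g φ) y * ((j : ℝ) * y ^ (j - 1))) y :=
        h4.hasDerivAt.mul (hasDerivAt_pow j y)
      have h6 : HasDerivAt (fun z : ℝ => ψ (Real.log z)) (deriv ψ (Real.log y) * y⁻¹) y := by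
        have h7 : HasDerivAt ψ (deriv ψ (Real.log y)) (Real.log y) :=
          ((contDiff_infty_iff_deriv.1 h1).1 _).hasDerivAt
        exact h7.comp y (Real.hasDerivAt_log hy.ne')
      have h7 : (fun z : ℝ => ψ (Real.log z)) =ᶠ[nhds y]
          fun z : ℝ => iteratedDeriv j (poi2_g φ) z * z ^ j := by
        filter_upwards [Ioi_mem_nhds hy] with z hz
        exact (h2 z hz).symm
      have h8 := (h6.congr_of_eventuallyEq h7.symm).unique h5
      have h9 : (j : ℝ) * y ^ (j - 1) * y = (j : ℝ) * y ^ j := by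
        cases j with
        | zero => simp
        | succ k => rw [Nat.add_sub_cancel, pow_succ, mul_assoc]
      have h10 : deriv ψ (Real.log y) =
          (deriv (iteratedDeriv j (poi2_g φ)) y * y ^ j +
            iteratedDeriv j (poi2_g φ) y * ((j : ℝ) * y ^ (j - 1))) * y := by
        rw [← h8, mul_assoc, inv_mul_cancel₀ hy.ne', mul_one]
      change iteratedDeriv (j + 1) (poi2_g φ) y * y ^ (j + 1) =
        deriv ψ (Real.log y) - (j : ℝ) * ψ (Real.log y)
      rw [iteratedDeriv_succ, h10, ← h2 y hy, pow_succ]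
      linear_combination (iteratedDeriv j (poi2_g φ) y) * (-h9)
    · have h4 : iteratedDeriv i (fun t => deriv ψ t - (j : ℝ) * ψ t) t =
          iteratedDeriv (i + 1) ψ t - (j : ℝ) * iteratedDeriv i ψ t := by
        have h5 : ContDiffAt ℝ i (deriv ψ) t := (hψ'.of_le (by exact_mod_cast le_top)).contDiffAt
        have h6 : ContDiffAt ℝ i (fun t => (j : ℝ) * ψ t) t :=
          ((contDiff_const.mul h1).of_le (by exact_mod_cast le_top)).contDiffAt
        have h7 := iteratedDeriv_sub (n := i) (x := t) h5 h6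
        have h8 : (fun t => deriv ψ t - (j : ℝ) * ψ t) = (deriv ψ - fun t => (j : ℝ) * ψ t) := rfl
        rw [h8, h7, iteratedDeriv_succ']
        congr 1
        exact iteratedDeriv_const_mul_field (j : ℝ) ψ
      rw [h4]
      have h5 := h3 (i + 1) (by omega) t
      have h6 := h3 i (by omega) t
      have hUp : U ^ (i + j) ≤ U ^ (i + (j + 1)) := pow_le_pow_right₀ hU (by omega)
      have hUe : U ^ (i + 1 + j) = U ^ (i + (j + 1)) := by
        congr 1
        omega
      rw [hUe] at h5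
      have hf : (0 : ℝ) ≤ (j.factorial : ℝ) := Nat.cast_nonneg _
      have hj0 : (0 : ℝ) ≤ (j : ℝ) := Nat.cast_nonneg _
      calc |iteratedDeriv (i + 1) ψ t - (j : ℝ) * iteratedDeriv i ψ t| ≤
          |iteratedDeriv (i + 1) ψ t| + |(j : ℝ) * iteratedDeriv i ψ t| := abs_sub _ _
        _ ≤ (j.factorial : ℝ) * (B * U ^ (i + (j + 1))) +
            (j : ℝ) * ((j.factorial : ℝ) * (B * U ^ (i + (j + 1)))) := by
          refine add_le_add h5 ?_
          rw [abs_mul, abs_of_nonneg hj0]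
          refine mul_le_mul_of_nonneg_left (h6.trans ?_) hj0
          exact mul_le_mul_of_nonneg_left (mul_le_mul_of_nonneg_left hUp hB) hf
        _ = ((j + 1).factorial : ℝ) * (B * U ^ (i + (j + 1))) := by
          rw [Nat.factorial_succ, Nat.cast_mul, Nat.cast_add, Nat.cast_one]
          ring

theorem poi2 (A : ℕ) (hA : 2 ≤ A) : ∃ C : ℝ, 0 < C ∧ ∀ U p B : ℝ, 1 ≤ U → 0 ≤ p → 0 ≤ B → ∀ φ : ℝ → ℝ,
    ContDiff ℝ (⊤ : ℕ∞) φ → (∀ t, t ≤ p → φ t = 0) → (∀ t, p + 2 ≤ t → φ t = 0) →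
    (∀ j : ℕ, j ≤ A → ∀ t, |iteratedDeriv j φ t| ≤ B * U ^ j) → ∀ N : ℕ, Real.exp (p + 2) ≤ N →
    |(∑ n ∈ Icc 1 N, φ (Real.log n)) - ∫ t in p..(p + 2), φ t * Real.exp t| ≤
      C * B * U ^ A * Real.exp ((1 - A) * p) := by
  refine ⟨(A.factorial : ℝ) * Real.exp 2, by positivity, ?_⟩
  intro U p B hU hp hB φ hφ hlo hhi hd N hN
  have hgs := poi2_smooth hφ hlo
  obtain ⟨ψ, h1, h2, h3⟩ := poi2_rec hφ hU hB hlo hd A le_rfl
  have hU0 : 0 ≤ U := zero_le_one.trans hU
  have hpq : Real.exp p ≤ Real.exp (p + 2) := Real.exp_le_exp.2 (by linarith)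
  -- the derivative
  have hz : ∀ y : ℝ, y ∉ Set.Icc (Real.exp p) (Real.exp (p + 2)) →
      iteratedDeriv A (poi2_g φ) y = 0 := by
    intro y hy
    rw [Set.mem_Icc, not_and_or, not_le, not_le] at hy
    have h4 : poi2_g φ =ᶠ[nhds y] fun _ => 0 := by
      rcases hy with hy | hy
      · filter_upwards [Iio_mem_nhds hy] with z hz
        exact poi2_low hlo (le_of_lt hz)
      · filter_upwards [Ioi_mem_nhds hy] with z hz
        exact poi2_high hhi (le_of_lt hz)
    rw [h4.iteratedDeriv_eq A, iteratedDeriv_const, if_neg (by omega)]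
  have hb : ∀ y ∈ Set.Icc (Real.exp p) (Real.exp (p + 2)),
      |iteratedDeriv A (poi2_g φ) y| ≤ (A.factorial : ℝ) * (B * U ^ A) * Real.exp (-(A * p)) := by
    intro y hy
    have hy0 : 0 < y := (Real.exp_pos p).trans_le hy.1
    have h4 := h2 y hy0
    have h5 := h3 0 (by omega) (Real.log y)
    rw [iteratedDeriv_zero, zero_add, ← h4, abs_mul, abs_of_pos (pow_pos hy0 A)] at h5
    have h6 : Real.exp (A * p) ≤ y ^ A := by
      rw [Real.exp_nat_mul]
      exact pow_le_pow_left₀ (Real.exp_pos p).le hy.1 A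
    have h7 : |iteratedDeriv A (poi2_g φ) y| * Real.exp (A * p) ≤
        (A.factorial : ℝ) * (B * U ^ A) :=
      (mul_le_mul_of_nonneg_left h6 (abs_nonneg _)).trans h5
    rw [Real.exp_neg, ← div_eq_mul_inv, le_div_iff₀ (Real.exp_pos _)]
    exact h7
  have hcs : HasCompactSupport fun y => ((poi2_g φ y : ℝ) : ℂ) := by
    refine HasCompactSupport.of_support_subset_isCompact
      (isCompact_Icc (a := Real.exp p) (b := Real.exp (p + 2))) ?_
    intro y hy
    rw [Function.mem_support] at hy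
    by_contra hc
    apply hy
    rw [Set.mem_Icc, not_and_or, not_le, not_le] at hc
    rcases hc with hc | hc
    · rw [poi2_low hlo hc.le, Complex.ofReal_zero]
    · rw [poi2_high hhi hc.le, Complex.ofReal_zero]
  have hsm : ContDiff ℝ (⊤ : ℕ∞) fun y => ((poi2_g φ y : ℝ) : ℂ) :=
    Complex.ofRealCLM.contDiff.comp hgs
  have hP := poi _ hsm hcs A hA
  -- the sum
  have hS : (∑' m : ℤ, ((poi2_g φ (m : ℝ) : ℝ) : ℂ)) =
      ((∑ n ∈ Icc 1 N, φ (Real.log n) : ℝ) : ℂ) := by
    have h4 : ∀ m : ℤ, m ∉ (Icc 1 N).map ⟨((↑) : ℕ → ℤ), Nat.cast_injective⟩ →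
        ((poi2_g φ (m : ℝ) : ℝ) : ℂ) = 0 := by
      intro m hm
      rcases le_or_gt m 0 with h5 | h5
      · have h6 : ¬ (0 : ℝ) < (m : ℝ) := by
          rw [not_lt]
          exact_mod_cast h5
        unfold poi2_g
        rw [if_neg h6, Complex.ofReal_zero]
      · lift m to ℕ using h5.le
        have h6 : N < m := by
          by_contra h7
          apply hm
          rw [Finset.mem_map]
          exact ⟨m, Finset.mem_Icc.2 ⟨by omega, by omega⟩, rfl⟩
        have h7 : Real.exp (p + 2) ≤ ((m : ℤ) : ℝ) := by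
          refine hN.trans ?_
          rw [Int.cast_natCast]
          exact_mod_cast h6.le
        rw [poi2_high hhi h7, Complex.ofReal_zero]
    rw [tsum_eq_sum (s := (Icc 1 N).map ⟨((↑) : ℕ → ℤ), Nat.cast_injective⟩) (fun m hm => h4 m hm),
      Finset.sum_map, Complex.ofReal_sum]
    refine Finset.sum_congr rfl fun n hn => ?_
    have h5 : (0 : ℝ) < ((n : ℤ) : ℝ) := by
      have := (Finset.mem_Icc.1 hn).1
      rw [Int.cast_natCast]
      exact_mod_cast this
    change ((poi2_g φ (((n : ℤ)) : ℝ) : ℝ) : ℂ) = _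
    unfold poi2_g
    rw [if_pos h5, Int.cast_natCast]
  -- the integral
  have hI : (∫ y, ((poi2_g φ y : ℝ) : ℂ)) = ((∫ t in p..(p + 2), φ t * Real.exp t : ℝ) : ℂ) := by
    rw [integral_complex_ofReal]
    congr 1
    have h4 := intervalIntegral.integral_comp_mul_deriv (a := p) (b := p + 2) (f := Real.exp)
      (f' := Real.exp) (g := poi2_g φ) (fun x _ => Real.hasDerivAt_exp x)
      Real.continuous_exp.continuousOn hgs.continuous
    have h5 : (∫ t in p..(p + 2), φ t * Real.exp t) =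
        ∫ x in p..(p + 2), (poi2_g φ ∘ Real.exp) x * Real.exp x := by
      refine intervalIntegral.integral_congr fun x _ => ?_
      change φ x * Real.exp x = poi2_g φ (Real.exp x) * Real.exp x
      unfold poi2_g
      rw [if_pos (Real.exp_pos x), Real.log_exp]
    rw [h5, h4, intervalIntegral.integral_of_le hpq]
    symm
    refine setIntegral_eq_integral_of_forall_compl_eq_zero fun y hy => ?_
    rw [Set.mem_Ioc, not_and_or, not_lt, not_le] at hy
    rcases hy with hy | hy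
    · exact poi2_low hlo hy
    · exact poi2_high hhi hy.le
  have hL : ‖(∑' m : ℤ, ((poi2_g φ (m : ℝ) : ℝ) : ℂ)) - ∫ y, ((poi2_g φ y : ℝ) : ℂ)‖ =
      |(∑ n ∈ Icc 1 N, φ (Real.log n)) - ∫ t in p..(p + 2), φ t * Real.exp t| := by
    rw [hS, hI, ← Complex.ofReal_sub, Complex.norm_real, Real.norm_eq_abs]
  rw [← hL]
  refine hP.trans ?_
  rw [poi2_of hgs A]
  have h4 : (∫ y, ‖((iteratedDeriv A (poi2_g φ) y : ℝ) : ℂ)‖) =
      ∫ y in Set.Icc (Real.exp p) (Real.exp (p + 2)), |iteratedDeriv A (poi2_g φ) y| := by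
    rw [← setIntegral_eq_integral_of_forall_compl_eq_zero
      (s := Set.Icc (Real.exp p) (Real.exp (p + 2))) (fun y hy => by
        rw [hz y hy, Complex.ofReal_zero, norm_zero])]
    refine setIntegral_congr_fun measurableSet_Icc fun y _ => ?_
    rw [Complex.norm_real, Real.norm_eq_abs]
  rw [h4]
  have h5 : ‖∫ y in Set.Icc (Real.exp p) (Real.exp (p + 2)), |iteratedDeriv A (poi2_g φ) y|‖ ≤
      ((A.factorial : ℝ) * (B * U ^ A) * Real.exp (-(A * p))) *
        volume.real (Set.Icc (Real.exp p) (Real.exp (p + 2))) := by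
    refine norm_setIntegral_le_of_norm_le_const ?_ fun y hy => ?_
    · rw [Real.volume_Icc]
      exact ENNReal.ofReal_lt_top
    · rw [Real.norm_eq_abs, abs_abs]
      exact hb y hy
  refine (le_abs_self _).trans (h5.trans ?_)
  have h6 : volume.real (Set.Icc (Real.exp p) (Real.exp (p + 2))) ≤ Real.exp 2 * Real.exp p := by
    rw [Real.volume_real_Icc_of_le hpq, ← Real.exp_add]
    have := Real.exp_pos p
    have h7 : Real.exp (2 + p) = Real.exp (p + 2) := by
      congr 1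
      ring
    rw [h7]
    linarith
  have h7 : Real.exp ((1 - A) * p) = Real.exp (-(A * p)) * Real.exp p := by
    rw [← Real.exp_add]
    congr 1
    ring
  rw [h7]
  calc (A.factorial : ℝ) * (B * U ^ A) * Real.exp (-(A * p)) *
        volume.real (Set.Icc (Real.exp p) (Real.exp (p + 2))) ≤
      (A.factorial : ℝ) * (B * U ^ A) * Real.exp (-(A * p)) * (Real.exp 2 * Real.exp p) :=
        mul_le_mul_of_nonneg_left h6 (by positivity)
    _ = _ := by ring

end Pool.Agent.H27.TS
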