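import Pool.Agent.H27.TS.Defs

/-!
# [H27 TS REP] the smooth sum is an average of sharp intervals

PROOF. `φ = Real.smoothTransition` is monotone (`Real.smoothTransition.monotone`), smooth, `0` for `w ≤ 0`, `1` for
`w ≥ 1`, so `φ' ≥ 0`, `∫_0^1 φ' = 1` and `gk w = φ w - φ (w-1) = ∫_0^1 φ'(c) 1[w - 1 < c ≤ w] dc` (fundamental theorem of
calculus, `φ' = 0` outside `[0,1]`). With `w = U (v - log n)`: `c ≤ w < c + 1` iff `e^(v-(c+1)/U) < n ≤ e^(v-c/U)`. Sum
over `n` with weights `Λ(n)`: `∑ Λ(n) gk(..) = ∫_0^1 φ'(c) (ψ(e^(v-c/U)) - ψ(e^(v-(c+1)/U))) dc`. The main term: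
`∫_0^1 φ'(c) (e^(v-c/U) - e^(v-(c+1)/U)) dc = e^v (1/U) ∫_0^2 gk(w) e^(-w/U) dw = cU U e^v` (write
`e^(-c/U) - e^(-(c+1)/U) = (1/U) ∫_c^(c+1) e^(-w/U) dw` and exchange). This gives `rep_dl`; `rep_ps` follows because
`Ps x h = ψ(x+h) - ψ(x) - h` (`Chebyshev.psi_eq_sum_Icc`, `Finset.sum_Ioc_consecutive` or `sum_sdiff`).
`Dl` is measurable (`ψ` monotone) and bounded on bounded sets (`|ψ(x)| ≤ C x`), so interval integrable. `Dv U` is
continuous: on `v ≤ R` use `Dv_eq` with `N = ⌊e^R⌋₊`: a finite sum of continuous functions.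
-/

set_option autoImplicit false

namespace Pool.Agent.H27.TS

open MeasureTheory Finset Pool.Agent.H48.WN Pool.Agent.H24.WH

theorem st_deriv_nonneg (c : ℝ) : 0 ≤ deriv Real.smoothTransition c := by
  sorry

theorem st_deriv_int : ∫ c in (0 : ℝ)..1, deriv Real.smoothTransition c = 1 := by
  sorry

theorem dl_meas : Measurable Dl := by
  sorry

/-- `|ψ(e^v) - e^v| ≤ 5 e^v` -/
theorem dl_abs (v : ℝ) : |Dl v| ≤ 5 * Real.exp v := by
  sorry

theorem dl_int (p q : ℝ) : IntervalIntegrable Dl volume p q := by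
  sorry

theorem dv_cont {U : ℝ} (hU : 0 < U) : Continuous (Dv U) := by
  sorry

theorem rep_dl {U : ℝ} (hU : 0 < U) (v : ℝ) :
    Dv U v = ∫ c in (0 : ℝ)..1, deriv Real.smoothTransition c * (Dl (v - c / U) - Dl (v - (c + 1) / U)) := by
  sorry

theorem rep_ps {U : ℝ} (hU : 0 < U) (v : ℝ) :
    Dv U v = ∫ c in (0 : ℝ)..1, deriv Real.smoothTransition c *
      Ps (Real.exp (v - (c + 1) / U)) (Real.exp (v - c / U) - Real.exp (v - (c + 1) / U)) := by
  sorry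

/-- trivial bound -/
theorem dv_abs {U : ℝ} (hU : 0 < U) (v : ℝ) : |Dv U v| ≤ 10 * Real.exp v := by
  sorry

end Pool.Agent.H27.TS
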