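import Pool.Agent.H27.TS.Rep
import Pool.Agent.H43.SI.Pl

/-!
# [H27 TS WTA] Plancherel for the smooth short sums, one step

`s = σ + it`, `L = log T`, `U = 8T`, `N = NN b T = ⌊T^(b+3)⌋`.
PROOF. `f(v) = ρ(v/L) e^(-σv) Dv U v`: continuous (`dv_cont`), supported in `[bL, (b+1)L]`. Fourier transform: on the support
`e^v ≤ T^(b+1) ≤ N` (for `T ≥ 10`), so by `Dv_eq`, `v = log n + w/U`:
`∫ f(v) e^(-itv) dv = (1/U) ∑_(n ≤ N) Λ(n) n^(-s) ∫_0^2 ρ((log n + w/U)/L) e^(-sw/U) gk(w) dw - cU ∫ ρ(v/L) e^((1-s)v) dv`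
and `ρ((log n + w/U)/L) = ρ(log n/L) + (w/(UL)) ∫_0^1 ρ'((log n + τw/U)/L) dτ`. So with `R_ρ(s) = Dp La ρ T N s`,
`K0(s) = ∫_0^2 gk(w) e^(-sw/U) dw`:
`K0(s) R_ρ(s) = U f̂(t) + U cU ∫ ρ(v/L) e^((1-s)v) dv - (1/(UL)) ∫_0^1 ∫_0^2 w gk(w) e^(-sw/U) R_(ρ'(· + τw/(UL)))(s) dw dτ`.
`|K0(s)| ≥ Re K0 ≥ 1/4`: for `|t| ≤ 4T`, `U = 8T`, `0 ≤ w ≤ 2`: `|tw/U| ≤ 1`, `cos ≥ 1/2`, `e^(-σw/U) ≥ 1/2`, `∫ gk = 1`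
(`∫_0^2 gk = ∫_0^1 φ + ∫_0^1 (1 - φ)`). `|w gk(w) e^(-sw/U)| ≤ 2`. Square (`(a+b+c)² ≤ 3(a²+b²+c²)`), Cauchy-Schwarz for the double
integral, integrate over `t ∈ [T/4, 4T]` (Fubini), Plancherel (`Pool/Agent/H43/SI/Pl.lean`, see how `H48/WN/Gal.lean` uses it)
`∫_ℝ |f̂(t)|² dt = 2π ∫ |f|²`, `U cU ≤ 1`. The shifts `a = τw/(UL)` lie in `[0, 2/(UL)]`.
-/

set_option autoImplicit false

namespace Pool.Agent.H27.TS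

open MeasureTheory Finset Pool.Agent.H48.WN Pool.Agent.H24.WH

theorem wta (b : ℝ) (hb : 2 ≤ b) : ∃ C : ℝ, 0 < C ∧ ∀ T σ : ℝ, 10 ≤ T → 1 / 4 ≤ σ → σ ≤ 3 / 4 → ∀ ρ : ℝ → ℝ,
    ContDiff ℝ (⊤ : ℕ∞) ρ → (∀ u, u ≤ b → ρ u = 0) → (∀ u, b + 1 ≤ u → ρ u = 0) → ∀ K : ℝ,
    (∀ a : ℝ, 0 ≤ a → a ≤ 2 / (8 * T * Real.log T) → Nn (fun u => deriv ρ (u + a)) T σ (NN b T) ≤ K) →
    Nn ρ T σ (NN b T) ≤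
      C * T ^ 2 * (∫ v in (b * Real.log T)..((b + 1) * Real.log T),
        (ρ (v / Real.log T) * Real.exp (-(σ * v)) * Dv (8 * T) v) ^ 2) +
      C / (T * Real.log T) ^ 2 * K +
      C * ∫ t in (T / 4)..(4 * T), ‖∫ v in (b * Real.log T)..((b + 1) * Real.log T),
        ((ρ (v / Real.log T) : ℝ) : ℂ) * Complex.exp ((1 - ((σ : ℂ) + (t : ℂ) * Complex.I)) * (v : ℂ))‖ ^ 2 := by
  sorry

end Pool.Agent.H27.TS
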