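import Pool.Agent.H27.TS.Wta

/-!
# [H27 TS WTB] the window polynomial is bounded by the smooth short sums

PROOF. `ρ_(j,a)(u) = (iteratedDeriv j (rh b h))(u + a)`, `j ≤ J`, `0 ≤ a ≤ 2j/(8TL)`. `rh b h` is supported in
`[b + h, b + 1/2 + 4h]` (`rh_zero_left`, `rh_zero_right`), `a ≤ h` for large `T`, so `wta` applies; all `|ρ_(j,a)| ≤ C_J`.
(i) `∫ (ρ_(j,a)(v/L) e^(-σv) Dv)² ≤ C_J² ∑_k e^(-2σ V_k) ∫_(V_k)^(V_k+1) Dv² ≤ C_J² (L + 2) W` with `V_k = bL + k`, `k ≥ 0`,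
`V_k ≤ (b + 1/2 + 4h) L` (beyond the support the integrand is `0`).
(ii) the third term of `wta`: integrate by parts `k` times, `k ≥ 2b + 20`: the inner integral is at most
`|1-s|^(-k) L^(-k) C L e^((b+1)L) ≤ C (4/T)^k L T^(b+1)` (`|1 - s| ≥ t ≥ T/4`; the exponential is at most `e^((1-σ)v) ≤ e^v`).
(iii) trivially `Nn(ρ_(J,a)) ≤ 4T (C_J ∑_(n ≤ N) Λ(n))² ≤ C T^(2b+8)`.
Downward induction on `j`: `Nn(ρ_(j,a)) ≤ C_j (T² (L+2) W + T^(-1)) + (C/(TL)²)^(J-j) C T^(2b+8)`; `J ≥ 2b + 20`. `j = 0`, `a = 0`: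
`Rh b h T s = Dp La (rh b h) T (NN b T) s`.
-/

set_option autoImplicit false

namespace Pool.Agent.H27.TS

open MeasureTheory Finset Pool.Agent.H48.WN Pool.Agent.H24.WH

theorem wtb (b h : ℝ) (hb : 2 ≤ b) (hh : 0 < h) (hh1 : h ≤ 1 / 100) : ∃ C T0 : ℝ, 0 < C ∧ 10 ≤ T0 ∧
    ∀ T σ W : ℝ, T0 ≤ T → 1 / 4 ≤ σ → σ ≤ 3 / 4 → 0 ≤ W →
    (∀ V : ℝ, b * Real.log T ≤ V → V ≤ (b + 1 / 2 + 5 * h) * Real.log T →
      ∫ v in V..(V + 1), (Dv (8 * T) v) ^ 2 ≤ W * Real.exp (2 * σ * V)) →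
    ∫ t in (T / 4)..(4 * T), ‖Rh b h T ((σ : ℂ) + (t : ℂ) * Complex.I)‖ ^ 2 ≤
      C * T ^ 2 * Real.log T * W + 1 := by
  sorry

end Pool.Agent.H27.TS
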